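import Pool.Agent.Lib.MP_0087d5_lcMT.ADefs

/-!
# Perfect matchings in NC for all but `n ^ (C n)` graphs: definitions

`w2 r u v = r u * v + r v * u` (the coordinates of `r` as natural numbers below `q`), file `MT/ADefs`.
-/

set_option autoImplicit false

namespace LIN

open Finset MTC

section
variable {n q : ℕ}

/-- a system of equations: for `x` in `W` and not in `Z` two different partners `z1 x`, `z2 x` in `Z`, with the labels `i1 x`, `i2 x` -/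
def GoodS (W Z J : Finset (Fin n)) (z1 z2 i1 i2 : Fin n → Fin n) : Prop :=
  Z ⊆ W ∧ J ⊆ W ∧ W.Nonempty ∧ 2 * (2 * Z.card + J.card) ≤ W.card ∧
    ∀ x ∈ W, x ∉ Z → z1 x ≠ z2 x ∧ z1 x ∈ Z ∧ z2 x ∈ Z ∧ (i1 x = i2 x ∨ (i1 x ∈ J ∧ i2 x ∈ J))

/-- the weights of the pairs `(x, z1 x)` and `(x, z2 x)` are given by potentials -/
def Pot (W Z : Finset (Fin n)) (z1 z2 i1 i2 : Fin n → Fin n) (r : Fin n → ZMod q) : Prop :=
  ∃ α γ : Fin n → ℝ, ∀ x ∈ W, x ∉ Z →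
    (w2 r x (z1 x) : ℝ) = α x + α (z1 x) - γ (i1 x) ∧ (w2 r x (z2 x) : ℝ) = α x + α (z2 x) - γ (i2 x)

/-- the bad points for the first weights -/
def BadA (r : Fin n → ZMod q) : Prop :=
  ∃ (W Z J : Finset (Fin n)) (z1 z2 i1 i2 : Fin n → Fin n), GoodS W Z J z1 z2 i1 i2 ∧ Pot W Z z1 z2 i1 i2 r

/-- the weights of the test, with the source `A` -/
noncomputable def WT2 (K q : ℕ) (A : SimpleGraph (Fin n)) (g y : ZMod q) (t : ℕ) (y' : ZMod q) (t' : ℕ) (u v : Fin n) : ℕ :=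
  K * w2 (rG q A g y t) u v + w2 (rG q A g y' t') u v

/-- some parameters bounded by `n ^ C` isolate a perfect matching of `G`, with the source `A` -/
def OK2 (C : ℕ) (G A : SimpleGraph (Fin n)) : Prop :=
  ∃ (K q t t' : ℕ) (g y y' : ZMod q), q.Prime ∧ K ≤ n ^ C ∧ q ≤ n ^ C ∧ t ≤ 2 * n ∧ t' ≤ 2 * n ∧ Iso G (WT2 K q A g y t y' t')

end

end LIN
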