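import Pool.Agent.Lib.MP_0087d5_lcLI.Grid
import Pool.Agent.Lib.MP_0087d5_lcLI.LDefs

/-!
# Leaf LC (medium): the number of the points with potentials, for a given system (from `grid`)

Proof. Let `P` be the set of the `r` with `Pot … r`. Map `r ∈ P` to its restriction to `(univ \ W) ∪ Z`, as a function on the subtype; there are `q ^ (n - card W + card Z)` possible values. By `Finset.card_le_mul_card_image` (or a sum over the fibres) it is enough
that each fibre has at most `q ^ (card Z + card J)` elements. For `r, r'` in one fibre with potentials `α, γ` and `α', γ'` and `x ∈ W`, `x ∉ Z`: subtract the two equations for `x` and use `w2 r x z = r x * z + r z * x`,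
`r (z1 x) = r' (z1 x)`, `r (z2 x) = r' (z2 x)`: with `a = α - α'`, `c = γ - γ'`,
`(r x - r' x) * (z1 x - z2 x) = (a (z1 x) - a (z2 x)) - (c (i1 x) - c (i2 x))`, and `z1 x ≠ z2 x`. If `i1 x = i2 x` the last bracket is `0`; otherwise both labels are in `J`. So the vector of the differences `(r x - r' x)`, `x ∈ W \ Z`, is in the
range `U` of the linear map from `(Z → ℝ) × (J → ℝ)` to `{x // x ∈ W \ Z} → ℝ` given by this formula (the `J` part is multiplied by `0` if `i1 x = i2 x`); `finrank U ≤ card Z + card J` (`LinearMap.finrank_range_le`). Apply `grid` with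
`I = {x // x ∈ W ∧ x ∉ Z}`, `k = card Z + card J` to the set of the functions `x ↦ (r x).val`, `r` in the fibre (`ZMod.val_lt`, `ZMod.val_injective`). Total: `q ^ (n - card W + card Z) * q ^ (card Z + card J)`.
-/

set_option autoImplicit false

namespace LIN

open Finset MTC

private theorem LC_card {n : ℕ} {W Z : Finset (Fin n)} (hZ : Z ⊆ W)
    [Fintype {x : Fin n // ¬ (x ∈ W ∧ x ∉ Z)}] :
    Fintype.card {x : Fin n // ¬ (x ∈ W ∧ x ∉ Z)} = n - W.card + Z.card := by
  classical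
  have h1 : Fintype.card {x : Fin n // x ∈ W ∧ x ∉ Z} = (W \ Z).card :=
    Fintype.card_of_subtype (W \ Z) (fun x => by rw [mem_sdiff])
  have h2 : Fintype.card {x : Fin n // ¬ (x ∈ W ∧ x ∉ Z)} = n - (W \ Z).card := by
    rw [Fintype.card_subtype_compl, h1, Fintype.card_fin]
  have h3 : W.card ≤ n := by
    have h4 := card_le_univ W
    rwa [Fintype.card_fin] at h4
  have h4 : Z.card ≤ W.card := card_le_card hZ
  rw [h2, card_sdiff_of_subset hZ]
  omega

open Classical in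
private theorem LC_fib {n q : ℕ} [Fact q.Prime] (W Z J : Finset (Fin n)) (z1 z2 i1 i2 : Fin n → Fin n)
    (h : GoodS W Z J z1 z2 i1 i2) (b : {x : Fin n // ¬ (x ∈ W ∧ x ∉ Z)} → ZMod q) :
    ((univ.filter fun r : Fin n → ZMod q => Pot W Z z1 z2 i1 i2 r).filter
      fun r => (fun x : {x : Fin n // ¬ (x ∈ W ∧ x ∉ Z)} => r x.1) = b).card ≤ q ^ (Z.card + J.card) := by
  obtain ⟨hZW, hJW, hWne, hcard, hx⟩ := h
  have hq : q.Prime := Fact.out
  let E : Fin n → {x : Fin n // x ∈ W ∧ x ∉ Z} → ℝ := fun z x =>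
    ((if z1 x.1 = z then 1 else 0) - (if z2 x.1 = z then 1 else 0)) / (((z1 x.1 : ℕ) : ℝ) - ((z2 x.1 : ℕ) : ℝ))
  let F : Fin n → {x : Fin n // x ∈ W ∧ x ∉ Z} → ℝ := fun j x =>
    (if i1 x.1 = i2 x.1 then 0 else ((if i2 x.1 = j then 1 else 0) - (if i1 x.1 = j then 1 else 0))) /
      (((z1 x.1 : ℕ) : ℝ) - ((z2 x.1 : ℕ) : ℝ))
  let U : Submodule ℝ ({x : Fin n // x ∈ W ∧ x ∉ Z} → ℝ) :=
    Submodule.span ℝ ((Z.image E ∪ J.image F : Finset ({x : Fin n // x ∈ W ∧ x ∉ Z} → ℝ)) :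
      Set ({x : Fin n // x ∈ W ∧ x ∉ Z} → ℝ))
  have hU : Module.finrank ℝ U ≤ Z.card + J.card :=
    (finrank_span_finset_le_card _).trans ((card_union_le _ _).trans (Nat.add_le_add card_image_le card_image_le))
  obtain ⟨T, hT⟩ : ∃ T : Finset (Fin n → ZMod q), T = ((univ.filter fun r : Fin n → ZMod q =>
      Pot W Z z1 z2 i1 i2 r).filter fun r => (fun x : {x : Fin n // ¬ (x ∈ W ∧ x ∉ Z)} => r x.1) = b) := ⟨_, rfl⟩
  rw [← hT]
  have hTm : ∀ r ∈ T, Pot W Z z1 z2 i1 i2 r ∧ ∀ x : Fin n, ¬ (x ∈ W ∧ x ∉ Z) → ∀ r' ∈ T, r x = r' x := by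
    intro r hr
    rw [hT, mem_filter, mem_filter] at hr
    refine ⟨hr.1.2, fun x hxx r' hr' => ?_⟩
    rw [hT, mem_filter, mem_filter] at hr'
    have h1 := congrFun (hr.2.trans hr'.2.symm) ⟨x, hxx⟩
    exact h1
  let f : (Fin n → ZMod q) → {x : Fin n // x ∈ W ∧ x ∉ Z} → ℕ := fun r x => (r x.1).val
  have hinj : Set.InjOn f (T : Set (Fin n → ZMod q)) := by
    intro r hr r' hr' hrr
    funext x
    by_cases hxx : x ∈ W ∧ x ∉ Z
    · exact ZMod.val_injective q (congrFun hrr ⟨x, hxx⟩)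
    · exact (hTm r hr).2 x hxx r' hr'
  rw [← card_image_of_injOn hinj]
  refine grid U (Z.card + J.card) q hq.one_lt.le hU (T.image f) ?_ ?_
  · intro a ha i
    obtain ⟨r, -, rfl⟩ := mem_image.1 ha
    exact ZMod.val_lt _
  · intro a ha a' ha'
    obtain ⟨r, hr, rfl⟩ := mem_image.1 ha
    obtain ⟨r', hr', rfl⟩ := mem_image.1 ha'
    obtain ⟨α, γ, hα⟩ := (hTm r hr).1
    obtain ⟨α', γ', hα'⟩ := (hTm r' hr').1
    have hsum : (fun i : {x : Fin n // x ∈ W ∧ x ∉ Z} => ((f r i : ℕ) : ℝ) - ((f r' i : ℕ) : ℝ)) =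
        ∑ z ∈ Z, (α z - α' z) • E z + ∑ j ∈ J, (γ j - γ' j) • F j := by
      funext x
      obtain ⟨hz, hz1, hz2, hi⟩ := hx x.1 x.2.1 x.2.2
      obtain ⟨e1, e2⟩ := hα x.1 x.2.1 x.2.2
      obtain ⟨e1', e2'⟩ := hα' x.1 x.2.1 x.2.2
      have r1 : r (z1 x.1) = r' (z1 x.1) := (hTm r hr).2 _ (fun hh => hh.2 hz1) r' hr'
      have r2 : r (z2 x.1) = r' (z2 x.1) := (hTm r hr).2 _ (fun hh => hh.2 hz2) r' hr'
      have hne : ((z1 x.1 : ℕ) : ℝ) - ((z2 x.1 : ℕ) : ℝ) ≠ 0 := by
        intro h0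
        apply hz
        apply Fin.ext
        exact_mod_cast sub_eq_zero.1 h0
      unfold w2 at e1 e2 e1' e2'
      rw [← r1] at e1'
      rw [← r2] at e2'
      push_cast at e1 e2 e1' e2'
      have s1 : ∑ z ∈ Z, (α z - α' z) * E z x = ((α (z1 x.1) - α' (z1 x.1)) - (α (z2 x.1) - α' (z2 x.1))) /
          (((z1 x.1 : ℕ) : ℝ) - ((z2 x.1 : ℕ) : ℝ)) := by
        have h1 : ∀ z ∈ Z, (α z - α' z) * E z x =
            ((if z1 x.1 = z then (α z - α' z) else 0) - (if z2 x.1 = z then (α z - α' z) else 0)) /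
              (((z1 x.1 : ℕ) : ℝ) - ((z2 x.1 : ℕ) : ℝ)) := by
          intro z _
          show (α z - α' z) * (((if z1 x.1 = z then 1 else 0) - (if z2 x.1 = z then 1 else 0)) /
            (((z1 x.1 : ℕ) : ℝ) - ((z2 x.1 : ℕ) : ℝ))) = _
          split_ifs <;> ring
        rw [sum_congr rfl h1, ← sum_div, sum_sub_distrib, sum_ite_eq, sum_ite_eq, if_pos hz1, if_pos hz2]
      have s2 : ∑ j ∈ J, (γ j - γ' j) * F j x = ((γ (i2 x.1) - γ' (i2 x.1)) - (γ (i1 x.1) - γ' (i1 x.1))) /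
          (((z1 x.1 : ℕ) : ℝ) - ((z2 x.1 : ℕ) : ℝ)) := by
        by_cases hii : i1 x.1 = i2 x.1
        · have h1 : ∀ j ∈ J, (γ j - γ' j) * F j x = 0 := by
            intro j _
            show (γ j - γ' j) * ((if i1 x.1 = i2 x.1 then 0 else
              ((if i2 x.1 = j then 1 else 0) - (if i1 x.1 = j then 1 else 0))) /
                (((z1 x.1 : ℕ) : ℝ) - ((z2 x.1 : ℕ) : ℝ))) = 0
            rw [if_pos hii, zero_div, mul_zero]
          rw [sum_congr rfl h1, sum_const_zero, hii, sub_self, zero_div]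
        · obtain ⟨hi1, hi2⟩ := hi.resolve_left hii
          have h1 : ∀ j ∈ J, (γ j - γ' j) * F j x =
              ((if i2 x.1 = j then (γ j - γ' j) else 0) - (if i1 x.1 = j then (γ j - γ' j) else 0)) /
                (((z1 x.1 : ℕ) : ℝ) - ((z2 x.1 : ℕ) : ℝ)) := by
            intro j _
            show (γ j - γ' j) * ((if i1 x.1 = i2 x.1 then 0 else
              ((if i2 x.1 = j then 1 else 0) - (if i1 x.1 = j then 1 else 0))) /
                (((z1 x.1 : ℕ) : ℝ) - ((z2 x.1 : ℕ) : ℝ))) = _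
            rw [if_neg hii]
            split_ifs <;> ring
          rw [sum_congr rfl h1, ← sum_div, sum_sub_distrib, sum_ite_eq, sum_ite_eq, if_pos hi1, if_pos hi2]
      rw [Pi.add_apply, Finset.sum_apply, Finset.sum_apply]
      have t1 : ∑ z ∈ Z, ((α z - α' z) • E z) x = ∑ z ∈ Z, (α z - α' z) * E z x := rfl
      have t2 : ∑ j ∈ J, ((γ j - γ' j) • F j) x = ∑ j ∈ J, (γ j - γ' j) * F j x := rfl
      rw [t1, t2, s1, s2, ← add_div, eq_div_iff hne]
      show (((r x.1).val : ℕ) - ((r' x.1).val : ℕ) : ℝ) * _ = _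
      linear_combination e1 - e2 - e1' + e2'
    have hmem : ∑ z ∈ Z, (α z - α' z) • E z + ∑ j ∈ J, (γ j - γ' j) • F j ∈ U := by
      refine U.add_mem (U.sum_mem fun z hz => U.smul_mem _ (Submodule.subset_span ?_))
        (U.sum_mem fun j hj => U.smul_mem _ (Submodule.subset_span ?_))
      · exact mem_coe.2 (mem_union_left _ (mem_image_of_mem E hz))
      · exact mem_coe.2 (mem_union_right _ (mem_image_of_mem F hj))
    rw [hsum]
    exact hmem

open Classical in
theorem card_pot {n q : ℕ} [Fact q.Prime] (W Z J : Finset (Fin n)) (z1 z2 i1 i2 : Fin n → Fin n) (h : GoodS W Z J z1 z2 i1 i2) :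
    (univ.filter fun r : Fin n → ZMod q => Pot W Z z1 z2 i1 i2 r).card ≤ q ^ (n - W.card + 2 * Z.card + J.card) := by
  have h1 := card_le_mul_card_image_of_maps_to
    (f := fun (r : Fin n → ZMod q) (x : {x : Fin n // ¬ (x ∈ W ∧ x ∉ Z)}) => r x.1)
    (s := univ.filter fun r : Fin n → ZMod q => Pot W Z z1 z2 i1 i2 r) (t := univ) (fun _ _ => mem_univ _)
    (q ^ (Z.card + J.card)) (fun b _ => LC_fib W Z J z1 z2 i1 i2 h b)
  refine h1.trans (le_of_eq ?_)
  have hW : W.card ≤ n := by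
    have h4 := card_le_univ W
    rwa [Fintype.card_fin] at h4
  rw [card_univ, Fintype.card_fun, ZMod.card, LC_card h.1, ← pow_add]
  congr 1
  omega

end LIN
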