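import Pool.Agent.Lib.MP_0087d5_lcLI.Cnt

/-!
# Leaf LU (medium): there are few bad points (union bound)

Proof. `BadA r` is a union over the systems. For the count encode the system by `τ : Fin n → Option (Bool × Bool × Fin n × Fin n × Fin n × Fin n)`: `none` outside of `W`, otherwise (`x ∈ Z`, `x ∈ J`, `z1 x`, `z2 x`, `i1 x`, `i2 x`) (`Pot` and `GoodS` depend only on the
values at the `x ∈ W`; outside of `W` one may take `z1 x = x` and so on). Let `N` = the number of the `x` with `τ x ≠ none`, that is `card W`. As `W` is nonempty and `4 * card Z ≤ N`, some `x ∈ W` is not in `Z`, so `card Z ≥ 2` and `N ≥ 8`. By `card_pot` the number of the `r` for `τ` is at most `q ^ e`,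
`e = n - N + 2 * card Z + card J`, `2 * e ≤ 2 * n - N`. With `s = 4 * n ^ 5`, `s ^ 4 ≤ q`: `n - e ≥ N / 2 ≥ 2 + N / 4`, so `q ^ e * s ^ N ≤ q ^ (n - 2)` (`s ^ N ≤ s ^ (4 * (n - 2 - e)) ≤ q ^ (n - 2 - e)`). So over the real numbers the total is at most
`q ^ (n - 2) * ∑ τ, ∏ x, (if τ x = none then 1 else 1 / s) = q ^ (n - 2) * (1 + 4 * n ^ 4 / s) ^ n = q ^ (n - 2) * (1 + 1 / n) ^ n ≤ 3 * q ^ (n - 2) ≤ n ^ 3 * q ^ (n - 1)`
(`Finset.prod_univ_sum` or `Fintype.piFinset`; `(1 + 1 / n) ^ n ≤ exp 1 < 3`: `Real.add_one_le_exp`, `Real.exp_one_lt_d9`; a weaker constant is enough, `3 ≤ n ^ 3 * q`).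
-/

set_option autoImplicit false

namespace LIN

open Finset MTC

/-- the codes of the elements of `W` -/
private abbrev LU_B (n : ℕ) : Type := Bool × Bool × Fin n × Fin n × Fin n × Fin n

private def LU_W {n : ℕ} (τ : Fin n → Option (LU_B n)) : Finset (Fin n) := univ.filter fun x => (τ x).isSome = true

private def LU_Z {n : ℕ} (τ : Fin n → Option (LU_B n)) : Finset (Fin n) :=
  univ.filter fun x => (τ x).elim false (fun b => b.1) = true

private def LU_J {n : ℕ} (τ : Fin n → Option (LU_B n)) : Finset (Fin n) :=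
  univ.filter fun x => (τ x).elim false (fun b => b.2.1) = true

private def LU_f {n : ℕ} (p : LU_B n → Fin n) (τ : Fin n → Option (LU_B n)) (x : Fin n) : Fin n := (τ x).elim x p

/-- the system of a code -/
private def LU_Sys {n q : ℕ} (τ : Fin n → Option (LU_B n)) (r : Fin n → ZMod q) : Prop :=
  GoodS (LU_W τ) (LU_Z τ) (LU_J τ) (LU_f (fun b => b.2.2.1) τ) (LU_f (fun b => b.2.2.2.1) τ)
      (LU_f (fun b => b.2.2.2.2.1) τ) (LU_f (fun b => b.2.2.2.2.2) τ) ∧
    Pot (LU_W τ) (LU_Z τ) (LU_f (fun b => b.2.2.1) τ) (LU_f (fun b => b.2.2.2.1) τ)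
      (LU_f (fun b => b.2.2.2.2.1) τ) (LU_f (fun b => b.2.2.2.2.2) τ) r

private theorem LU_code {n q : ℕ} (r : Fin n → ZMod q) (h : BadA r) : ∃ τ : Fin n → Option (LU_B n), LU_Sys τ r := by
  classical
  obtain ⟨W, Z, J, z1, z2, i1, i2, hG, hP⟩ := h
  obtain ⟨hZ, hJ, hW, hc, hx⟩ := hG
  refine ⟨fun x => if x ∈ W then some (decide (x ∈ Z), decide (x ∈ J), z1 x, z2 x, i1 x, i2 x) else none, ?_⟩
  obtain ⟨τ, hτ⟩ : ∃ τ : Fin n → Option (LU_B n), τ = fun x =>
    if x ∈ W then some (decide (x ∈ Z), decide (x ∈ J), z1 x, z2 x, i1 x, i2 x) else none := ⟨_, rfl⟩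
  rw [← hτ]
  have hin : ∀ x ∈ W, τ x = some (decide (x ∈ Z), decide (x ∈ J), z1 x, z2 x, i1 x, i2 x) := by
    intro x hx
    rw [hτ]
    simp only [if_pos hx]
  have hout : ∀ x, x ∉ W → τ x = none := by
    intro x hx
    rw [hτ]
    simp only [if_neg hx]
  have e1 : LU_W τ = W := by
    ext x
    unfold LU_W
    rw [mem_filter]
    by_cases hxW : x ∈ W
    · rw [hin x hxW]
      exact ⟨fun _ => hxW, fun _ => ⟨mem_univ _, rfl⟩⟩
    · rw [hout x hxW]
      exact ⟨fun h => absurd h.2 (by simp), fun h => absurd h hxW⟩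
  have e2 : LU_Z τ = Z := by
    ext x
    unfold LU_Z
    rw [mem_filter]
    by_cases hxW : x ∈ W
    · rw [hin x hxW]
      exact ⟨fun h => of_decide_eq_true h.2, fun h => ⟨mem_univ _, decide_eq_true h⟩⟩
    · rw [hout x hxW]
      exact ⟨fun h => absurd h.2 (by simp), fun h => absurd (hZ h) hxW⟩
  have e3 : LU_J τ = J := by
    ext x
    unfold LU_J
    rw [mem_filter]
    by_cases hxW : x ∈ W
    · rw [hin x hxW]
      exact ⟨fun h => of_decide_eq_true h.2, fun h => ⟨mem_univ _, decide_eq_true h⟩⟩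
    · rw [hout x hxW]
      exact ⟨fun h => absurd h.2 (by simp), fun h => absurd (hJ h) hxW⟩
  have e4 : ∀ x ∈ W, LU_f (fun b => b.2.2.1) τ x = z1 x := fun x hx => by
    unfold LU_f
    rw [hin x hx]
    rfl
  have e5 : ∀ x ∈ W, LU_f (fun b => b.2.2.2.1) τ x = z2 x := fun x hx => by
    unfold LU_f
    rw [hin x hx]
    rfl
  have e6 : ∀ x ∈ W, LU_f (fun b => b.2.2.2.2.1) τ x = i1 x := fun x hx => by
    unfold LU_f
    rw [hin x hx]
    rfl
  have e7 : ∀ x ∈ W, LU_f (fun b => b.2.2.2.2.2) τ x = i2 x := fun x hx => by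
    unfold LU_f
    rw [hin x hx]
    rfl
  unfold LU_Sys
  rw [e1, e2, e3]
  refine ⟨⟨hZ, hJ, hW, hc, fun x hxW hxZ => ?_⟩, ?_⟩
  · rw [e4 x hxW, e5 x hxW, e6 x hxW, e7 x hxW]
    exact hx x hxW hxZ
  · obtain ⟨α, γ, h⟩ := hP
    refine ⟨α, γ, fun x hxW hxZ => ?_⟩
    rw [e4 x hxW, e5 x hxW, e6 x hxW, e7 x hxW]
    exact h x hxW hxZ

open Classical in
private theorem LU_one {n q s : ℕ} [Fact q.Prime] (hs : s ^ 4 ≤ q) (hs0 : 0 < s) (τ : Fin n → Option (LU_B n)) :
    (univ.filter fun r : Fin n → ZMod q => LU_Sys τ r).card * s ^ (LU_W τ).card ≤ q ^ (n - 2) := by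
  by_cases hG : GoodS (LU_W τ) (LU_Z τ) (LU_J τ) (LU_f (fun b => b.2.2.1) τ) (LU_f (fun b => b.2.2.2.1) τ)
      (LU_f (fun b => b.2.2.2.2.1) τ) (LU_f (fun b => b.2.2.2.2.2) τ)
  · have h1 := card_pot (q := q) _ _ _ _ _ _ _ hG
    obtain ⟨hZ, hJ, hW, hc, hx⟩ := hG
    have hn : (LU_W τ).card ≤ n := by
      have h2 := card_le_univ (LU_W τ)
      rw [Fintype.card_fin] at h2
      exact h2
    have hW1 : 1 ≤ (LU_W τ).card := card_pos.2 hW
    have hex : ∃ x ∈ LU_W τ, x ∉ LU_Z τ := by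
      by_contra hcon
      have h2 : LU_W τ ⊆ LU_Z τ := fun x hx => by
        by_contra h3
        exact hcon ⟨x, hx, h3⟩
      have h3 := card_le_card h2
      omega
    obtain ⟨x, hxW, hxZ⟩ := hex
    obtain ⟨h2, h3, h4, -⟩ := hx x hxW hxZ
    have hZ2 : 2 ≤ (LU_Z τ).card := by
      have h5 : 1 < (LU_Z τ).card := one_lt_card.2 ⟨_, h3, _, h4, h2⟩
      omega
    have h6 : (univ.filter fun r : Fin n → ZMod q => LU_Sys τ r).card ≤
        q ^ (n - (LU_W τ).card + 2 * (LU_Z τ).card + (LU_J τ).card) := by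
      refine le_trans (card_le_card fun r hr => ?_) h1
      rw [mem_filter] at hr ⊢
      exact ⟨hr.1, hr.2.2⟩
    obtain ⟨e, he⟩ : ∃ e, e = n - (LU_W τ).card + 2 * (LU_Z τ).card + (LU_J τ).card := ⟨_, rfl⟩
    rw [← he] at h6
    have h7 : (LU_W τ).card ≤ 4 * (n - 2 - e) := by omega
    have h8 : e + (n - 2 - e) = n - 2 := by omega
    calc (univ.filter fun r : Fin n → ZMod q => LU_Sys τ r).card * s ^ (LU_W τ).card
        ≤ q ^ e * s ^ (4 * (n - 2 - e)) := Nat.mul_le_mul h6 (Nat.pow_le_pow_right hs0 h7)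
      _ ≤ q ^ e * q ^ (n - 2 - e) := by
          rw [pow_mul]
          exact Nat.mul_le_mul_left _ (Nat.pow_le_pow_left hs _)
      _ = q ^ (n - 2) := by rw [← pow_add, h8]
  · have h1 : (univ.filter fun r : Fin n → ZMod q => LU_Sys τ r) = ∅ := by
      rw [filter_eq_empty_iff]
      exact fun r _ hr => hG hr.1
    rw [h1, card_empty, zero_mul]
    exact Nat.zero_le _

private theorem LU_sum {n : ℕ} (c : ℝ) :
    ∑ τ : Fin n → Option (LU_B n), c ^ (LU_W τ).card = (1 + 4 * (n : ℝ) ^ 4 * c) ^ n := by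
  classical
  have h1 : ∀ τ : Fin n → Option (LU_B n), c ^ (LU_W τ).card = ∏ x, (τ x).elim 1 (fun _ => c) := by
    intro τ
    have h2 : ∀ x, (τ x).elim 1 (fun _ => c) = if (τ x).isSome = true then c else 1 := by
      intro x
      cases τ x
      · rfl
      · rfl
    rw [prod_congr rfl fun x _ => h2 x, prod_ite, prod_const_one, mul_one, prod_const]
    rfl
  rw [sum_congr rfl fun τ _ => h1 τ]
  have h3 := Finset.prod_univ_sum (fun _ : Fin n => (univ : Finset (Option (LU_B n))))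
    (fun _ o => (o.elim 1 (fun _ => c) : ℝ))
  rw [Fintype.piFinset_univ] at h3
  rw [← h3, prod_const, card_univ, Fintype.card_fin, Fintype.sum_option]
  congr 1
  have h4 : ∀ b : LU_B n, (some b).elim (1 : ℝ) (fun _ => c) = c := fun b => rfl
  rw [sum_congr rfl fun b _ => h4 b, sum_const, card_univ, nsmul_eq_mul]
  have h5 : Fintype.card (LU_B n) = 4 * n ^ 4 := by
    simp only [LU_B, Fintype.card_prod, Fintype.card_bool, Fintype.card_fin]
    ring
  rw [h5]
  push_cast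
  rfl

open Classical in
theorem card_badA {n q : ℕ} [Fact q.Prime] (hn : 2 ≤ n) (hq : (4 * n ^ 5) ^ 4 ≤ q) :
    (univ.filter fun r : Fin n → ZMod q => BadA r).card ≤ n ^ 3 * q ^ (n - 1) := by
  obtain ⟨s, hs⟩ : ∃ s : ℕ, s = 4 * n ^ 5 := ⟨_, rfl⟩
  have hn0 : 0 < n := by omega
  have hs0 : 0 < s := by
    rw [hs]
    positivity
  rw [← hs] at hq
  have hq0 : 0 < q := (Fact.out : q.Prime).pos
  have h1 : (univ.filter fun r : Fin n → ZMod q => BadA r).card ≤
      ∑ τ : Fin n → Option (LU_B n), (univ.filter fun r : Fin n → ZMod q => LU_Sys τ r).card := by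
    refine le_trans (card_le_card fun r hr => ?_) card_biUnion_le
    rw [mem_filter] at hr
    obtain ⟨τ, hτ⟩ := LU_code r hr.2
    exact mem_biUnion.2 ⟨τ, mem_univ _, mem_filter.2 ⟨mem_univ _, hτ⟩⟩
  have hsR : (0 : ℝ) < s := by exact_mod_cast hs0
  have h2 : ((∑ τ : Fin n → Option (LU_B n), (univ.filter fun r : Fin n → ZMod q => LU_Sys τ r).card : ℕ) : ℝ) ≤
      ∑ τ : Fin n → Option (LU_B n), (q : ℝ) ^ (n - 2) * (1 / (s : ℝ)) ^ (LU_W τ).card := by
    push_cast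
    refine sum_le_sum fun τ _ => ?_
    have h3 : (((univ.filter fun r : Fin n → ZMod q => LU_Sys τ r).card * s ^ (LU_W τ).card : ℕ) : ℝ) ≤
        ((q ^ (n - 2) : ℕ) : ℝ) := by exact_mod_cast LU_one hq hs0 τ
    push_cast at h3
    rw [one_div, inv_pow, ← div_eq_mul_inv, le_div_iff₀ (pow_pos hsR _)]
    exact h3
  rw [← mul_sum, LU_sum] at h2
  have hnR : (0 : ℝ) < n := by exact_mod_cast hn0
  have h4 : 1 + 4 * (n : ℝ) ^ 4 * (1 / (s : ℝ)) = 1 / (n : ℝ) + 1 := by
    rw [hs]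
    push_cast
    field_simp
    ring
  have h5 : (1 / (n : ℝ) + 1) ^ n ≤ 3 := by
    have h6 := Real.add_one_le_exp (1 / (n : ℝ))
    have h7 : (1 / (n : ℝ) + 1) ^ n ≤ Real.exp (1 / (n : ℝ)) ^ n := pow_le_pow_left₀ (by positivity) h6 n
    rw [← Real.exp_nat_mul, mul_one_div_cancel hnR.ne'] at h7
    have h8 := Real.exp_one_lt_d9
    linarith
  rw [h4] at h2
  have h9 : ((univ.filter fun r : Fin n → ZMod q => BadA r).card : ℝ) ≤ (q : ℝ) ^ (n - 2) * 3 := by
    refine le_trans (by exact_mod_cast h1) (le_trans h2 ?_)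
    exact mul_le_mul_of_nonneg_left h5 (by positivity)
  have h10 : (univ.filter fun r : Fin n → ZMod q => BadA r).card ≤ q ^ (n - 2) * 3 := by exact_mod_cast h9
  have h11 : 3 ≤ n ^ 3 := le_trans (by norm_num) (Nat.pow_le_pow_left hn 3)
  calc (univ.filter fun r : Fin n → ZMod q => BadA r).card ≤ q ^ (n - 2) * 3 := h10
    _ ≤ q ^ (n - 1) * n ^ 3 := Nat.mul_le_mul (Nat.pow_le_pow_right hq0 (by omega)) h11
    _ = n ^ 3 * q ^ (n - 1) := mul_comm _ _

end LIN
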