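import Pool.Agent.Lib.MP_0087d5_lcMT.ADefs
import Pool.Agent.Lib.MP_0087d5_lcMT.P6
import Pool.Agent.Lib.MP_0087d5_lcMT.R1

/-!
# Leaf LE (easy): few graphs have only bad points, for any small set of bad points

Proof. Exactly as `card_exc` in `Pool/Agent/Lib/MP_0087d5_lcMT/X2.lean` (copy its private lemmas with another prefix), with `B` instead of `BadR F` and `hB` instead of `isolation`.
-/

set_option autoImplicit false

namespace LIN

open Finset MTC Pool.Agent.PMNC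

private theorem LE_eid {n : ℕ} {u v u' v' : Fin n} (h : u < v) (h' : u' < v') (he : eid u v = eid u' v') :
    u = u' ∧ v = v' := by
  unfold eid at he
  rw [if_pos h, if_pos h'] at he
  have h1 := nv_injective (S := fun n => Fin n × Fin n) he
  exact Prod.mk.inj h1

open Classical in
/-- the coefficient vector of a graph -/
private noncomputable def LE_c (q : ℕ) {n : ℕ} (G : SimpleGraph (Fin n)) : Fin (n ^ 2) → ZMod q := fun i =>
  if ∃ u v : Fin n, (u < v ∧ G.Adj u v) ∧ eid u v = (i : ℕ) then 1 else 0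

private theorem LE_sum {n q : ℕ} (G : SimpleGraph (Fin n)) (z : ZMod q) :
    ∑ i : Fin (n ^ 2), LE_c q G i * z ^ (i : ℕ) = fG q G z := by
  classical
  have h1 : fG q G z = ∑ p ∈ univ.filter (fun p : Fin n × Fin n => p.1 < p.2 ∧ G.Adj p.1 p.2),
      z ^ eid p.1 p.2 := by
    unfold fG
    rw [Finset.sum_filter, Fintype.sum_prod_type]
  have h2 : ∑ i : Fin (n ^ 2), LE_c q G i * z ^ (i : ℕ) =
      ∑ i ∈ univ.filter (fun i : Fin (n ^ 2) => ∃ u v : Fin n, (u < v ∧ G.Adj u v) ∧ eid u v = (i : ℕ)),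
        z ^ (i : ℕ) := by
    rw [Finset.sum_filter]
    refine Finset.sum_congr rfl fun i _ => ?_
    unfold LE_c
    by_cases h : ∃ u v : Fin n, (u < v ∧ G.Adj u v) ∧ eid u v = (i : ℕ)
    · rw [if_pos h, if_pos h, one_mul]
    · rw [if_neg h, if_neg h, zero_mul]
  rw [h1, h2]
  symm
  refine Finset.sum_bij (fun p _ => (⟨eid p.1 p.2, eid_lt p.1 p.2⟩ : Fin (n ^ 2))) ?_ ?_ ?_ ?_
  · intro p hp
    rw [Finset.mem_filter] at hp ⊢
    exact ⟨Finset.mem_univ _, p.1, p.2, hp.2, rfl⟩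
  · intro p hp p' hp' h
    rw [Finset.mem_filter] at hp hp'
    obtain ⟨e1, e2⟩ := LE_eid hp.2.1 hp'.2.1 (congrArg Fin.val h)
    exact Prod.ext e1 e2
  · intro i hi
    rw [Finset.mem_filter] at hi
    obtain ⟨-, u, v, h, he⟩ := hi
    exact ⟨(u, v), Finset.mem_filter.2 ⟨Finset.mem_univ _, h⟩, Fin.ext he⟩
  · intro p _
    rfl

private theorem LE_inj {n q : ℕ} [Fact q.Prime] : Function.Injective (LE_c q (n := n)) := by
  intro G G' h
  have h1 : ∀ (G : SimpleGraph (Fin n)) (u v : Fin n), u < v →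
      (G.Adj u v ↔ LE_c q G ⟨eid u v, eid_lt u v⟩ = 1) := by
    intro G u v huv
    unfold LE_c
    constructor
    · intro ha
      rw [if_pos ⟨u, v, ⟨huv, ha⟩, rfl⟩]
    · intro h0
      by_cases hh : ∃ u' v' : Fin n, (u' < v' ∧ G.Adj u' v') ∧
          eid u' v' = ((⟨eid u v, eid_lt u v⟩ : Fin (n ^ 2)) : ℕ)
      · obtain ⟨u', v', ⟨a1, a2⟩, a3⟩ := hh
        obtain ⟨rfl, rfl⟩ := LE_eid a1 huv a3
        exact a2
      · rw [if_neg hh] at h0
        exact absurd h0 zero_ne_one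
  ext u v
  rcases lt_trichotomy u v with huv | rfl | huv
  · rw [h1 G u v huv, h1 G' u v huv, h]
  · simp
  · rw [G.adj_comm, G'.adj_comm, h1 G v u huv, h1 G' v u huv, h]

private theorem LE_pow {q : ℕ} [Fact q.Prime] {g : ZMod q} (ho : orderOf g = q - 1) :
    g ≠ 0 ∧ ∀ x : ZMod q, x ≠ 0 → ∃ i : ℕ, x = g ^ i := by
  have hq : 2 ≤ q := (Fact.out : q.Prime).two_le
  have hg0 : g ≠ 0 := by
    intro h
    have h1 : orderOf g ≠ 0 := by omega
    have h2 := pow_orderOf_eq_one g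
    rw [h, zero_pow (by rw [h] at h1; exact h1)] at h2
    exact zero_ne_one h2
  refine ⟨hg0, fun x hx => ?_⟩
  have h1 : orderOf (Units.mk0 g hg0) = q - 1 := by
    rw [← orderOf_units, Units.val_mk0, ho]
  have h2 : Subgroup.zpowers (Units.mk0 g hg0) = ⊤ := by
    apply Subgroup.eq_top_of_card_eq
    rw [Nat.card_zpowers, h1, Nat.card_eq_fintype_card, ZMod.card_units]
  have h3 : Units.mk0 x hx ∈ Subgroup.zpowers (Units.mk0 g hg0) := by
    rw [h2]
    exact Subgroup.mem_top _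
  rw [← mem_powers_iff_mem_zpowers] at h3
  obtain ⟨i, hi⟩ := h3
  refine ⟨i, ?_⟩
  have h4 := congrArg Units.val hi
  simpa using h4.symm

private theorem LE_wk {n q : ℕ} (f : ℕ → ZMod q) {t : ℕ} (ht : t ≤ 2 * n) (u : Fin n) :
    wk n (MTC.ext (fun j : Fin (5 * n) => f (j : ℕ))) t (u : ℕ) = wk n f t (u : ℕ) := by
  have h1 : ∀ j, j < 5 * n → MTC.ext (fun j : Fin (5 * n) => f (j : ℕ)) j = f j := by
    intro j hj
    unfold MTC.ext
    rw [dif_pos hj]
  have hu := u.2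
  unfold wk
  rw [h1 _ (by omega)]
  congr 1
  refine Finset.sum_congr rfl fun i hi => ?_
  rw [Finset.mem_range] at hi
  rw [h1 _ (by omega), h1 _ (by omega)]

open Classical in
theorem card_exc2 {n q h : ℕ} [Fact q.Prime] (hn : 2 ≤ n) (g : ZMod q) (ho : orderOf g = q - 1) (hh : h ≤ q)
    (hd : (h - 1) * (5 * n) * (n ^ 2 - 1) < q) (h2 : n ^ 2 ≤ q - 1) (h3 : q ^ (3 * n) * (2 * n ^ 3) ^ (2 * n) < h ^ (5 * n))
    (B : (Fin n → ZMod q) → Prop) (hB : (univ.filter fun r : Fin n → ZMod q => B r).card ≤ n ^ 3 * q ^ (n - 1)) :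
    (univ.filter fun G : SimpleGraph (Fin n) => ∀ y : ZMod q, ∀ t ≤ 2 * n, B (rG q G g y t)).card < q ^ (5 * n) := by
  obtain ⟨hg0, hgp⟩ := LE_pow ho
  have h5 := bad_seq (by omega : 1 ≤ n) (univ.filter fun r : Fin n → ZMod q => B r) hB
  have h6 := condenser g hgp hg0 (5 * n) (n ^ 2) h (by rw [ZMod.card]; exact hh)
    (univ.filter fun s : Fin (5 * n) → ZMod q => ∀ t ≤ 2 * n, (fun u : Fin n => wk n (MTC.ext s) t (u : ℕ)) ∈
      (univ.filter fun r : Fin n → ZMod q => B r))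
    (lt_of_le_of_lt h5 h3) (by rw [ZMod.card]; exact hd) (by rw [ZMod.card]; exact h2)
  rw [ZMod.card] at h6
  refine lt_of_le_of_lt ?_ h6
  rw [← Finset.card_image_of_injective _ (LE_inj (n := n) (q := q))]
  refine Finset.card_le_card fun c hc => ?_
  obtain ⟨G, hG, rfl⟩ := Finset.mem_image.1 hc
  rw [Finset.mem_filter] at hG ⊢
  refine ⟨Finset.mem_univ _, fun y => ?_⟩
  rw [Finset.mem_filter]
  refine ⟨Finset.mem_univ _, fun t ht => ?_⟩
  rw [Finset.mem_filter]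
  refine ⟨Finset.mem_univ _, ?_⟩
  have h7 : (fun j : Fin (5 * n) => ∑ i : Fin (n ^ 2), LE_c q G i * (g ^ (j : ℕ) * y) ^ (i : ℕ)) =
      fun j : Fin (5 * n) => (fun j : ℕ => fG q G (g ^ j * y)) (j : ℕ) := by
    funext j
    exact LE_sum G _
  rw [h7]
  have h8 : (fun u : Fin n => wk n (MTC.ext fun j : Fin (5 * n) => (fun j : ℕ => fG q G (g ^ j * y)) (j : ℕ)) t (u : ℕ)) =
      rG q G g y t := by
    funext u
    exact LE_wk (fun j : ℕ => fG q G (g ^ j * y)) ht u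
  rw [h8]
  exact hG.2 y t ht

end LIN
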