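import Mathlib

/-!
# Leaf LG (easy+, Mathlib only): a linear space of dimension `k` contains the differences of at most `q ^ k` points of the grid

Proof. Claim: for a subspace `U` of `I → ℝ` with `finrank U ≤ k` there is a set `T : Finset I` with `card T ≤ k` such that `u ∈ U`, `u i = 0` for all `i ∈ T` imply `u = 0`. Induction on `k`: if `U = ⊥` take `∅`. Otherwise some `u ∈ U` and `i` have `u i ≠ 0`;
`U' = U ⊓ ker (proj i)` is strictly smaller, so `finrank U' < finrank U` (`Submodule.finrank_lt_finrank_of_lt`); take `T'` for `U'` and `T = insert i T'`. Then the restriction of the elements of `X` to `T` is injective, with values in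
`{0, …, q - 1} ^ T`, which has `q ^ card T ≤ q ^ k` elements (`Finset.card_le_card_of_injOn` into `Fintype.piFinset`, or functions `T → Fin q`).
-/

set_option autoImplicit false

namespace LIN

open Finset

private theorem LG_coords {I : Type} [Fintype I] [DecidableEq I] (k : ℕ) : ∀ U : Submodule ℝ (I → ℝ),
    Module.finrank ℝ U ≤ k → ∃ T : Finset I, T.card ≤ k ∧ ∀ u ∈ U, (∀ i ∈ T, u i = 0) → u = 0 := by
  induction k with
  | zero =>
    intro U hU
    refine ⟨∅, le_rfl, fun u hu _ => ?_⟩
    have h1 : U = ⊥ := Submodule.finrank_eq_zero.1 (Nat.le_zero.1 hU)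
    rw [h1, Submodule.mem_bot] at hu
    exact hu
  | succ k ih =>
    intro U hU
    by_cases hbot : U = ⊥
    · refine ⟨∅, Nat.zero_le _, fun u hu _ => ?_⟩
      rw [hbot, Submodule.mem_bot] at hu
      exact hu
    · obtain ⟨u, hu, hu0⟩ := Submodule.exists_mem_ne_zero_of_ne_bot hbot
      obtain ⟨i, hi⟩ := Function.ne_iff.1 hu0
      have hlt : U ⊓ LinearMap.ker (LinearMap.proj i : (I → ℝ) →ₗ[ℝ] ℝ) < U := by
        refine lt_of_le_of_ne inf_le_left fun h => hi ?_
        have h1 : u ∈ U ⊓ LinearMap.ker (LinearMap.proj i : (I → ℝ) →ₗ[ℝ] ℝ) := by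
          rw [h]
          exact hu
        exact LinearMap.mem_ker.1 h1.2
      have h2 := Submodule.finrank_lt_finrank_of_lt hlt
      obtain ⟨T, hT, hT2⟩ := ih (U ⊓ LinearMap.ker (LinearMap.proj i : (I → ℝ) →ₗ[ℝ] ℝ)) (by omega)
      refine ⟨insert i T, (Finset.card_insert_le _ _).trans (by omega), fun v hv hv0 => ?_⟩
      refine hT2 v ⟨hv, LinearMap.mem_ker.2 (hv0 i (Finset.mem_insert_self i T))⟩ fun j hj => ?_
      exact hv0 j (Finset.mem_insert_of_mem hj)

theorem grid {I : Type} [Fintype I] [DecidableEq I] (U : Submodule ℝ (I → ℝ)) (k q : ℕ) (hq : 1 ≤ q) (hk : Module.finrank ℝ U ≤ k)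
    (X : Finset (I → ℕ)) (hX : ∀ a ∈ X, ∀ i, a i < q) (hd : ∀ a ∈ X, ∀ b ∈ X, (fun i => (a i : ℝ) - (b i : ℝ)) ∈ U) : X.card ≤ q ^ k := by
  obtain ⟨T, hT, hT2⟩ := LG_coords k U hk
  have h1 : X.card ≤ (Fintype.piFinset fun _ : T => Finset.range q).card := by
    refine Finset.card_le_card_of_injOn (fun a i => a i) ?_ ?_
    · intro a ha
      have ha' : a ∈ X := ha
      rw [Finset.mem_coe, Fintype.mem_piFinset]
      intro i
      exact Finset.mem_range.2 (hX a ha' i)
    · intro a ha b hb hab
      have h2 := hT2 _ (hd a ha b hb) (fun i hi => by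
        have h3 : a i = b i := congrFun hab ⟨i, hi⟩
        simp only [h3, sub_self])
      funext i
      have h4 : (a i : ℝ) - (b i : ℝ) = 0 := congrFun h2 i
      exact_mod_cast sub_eq_zero.1 h4
  rw [Fintype.card_piFinset, Finset.prod_const, Finset.card_range, Finset.card_univ, Fintype.card_coe] at h1
  exact h1.trans (Nat.pow_le_pow_right hq hT)

end LIN
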