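import Mathlib

/-!
# Leaf LH (easy+, Mathlib only): small sets which meet most sets of a family at least `j` times

Proof. For `Y ⊆ Q` let `Φ Y = ∑ x ∈ P, (j - card (R x ∩ Y)) + lam * card Y` (truncated subtraction). Let `Q'` be a subset of `Q` with `Φ Q'` minimal (`Finset.exists_min_image` on `Q.powerset`). `Φ Q' ≤ Φ ∅ = j * card P`: the first claim.
For `y ∈ Q \ Q'`, `Φ Q' ≤ Φ (insert y Q')`: so the number of the `x ∈ P` with `card (R x ∩ Q') < j` and `y ∈ R x` is at most `lam` (for such an `x` the term goes down by one, no term goes up). Sum over `y ∈ Q \ Q'` (double counting):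
every `x` with `card (R x ∩ Q') < j` has `card (R x \ Q') ≥ D - (j - 1)`. So `(D - j + 1) * (number of such x) ≤ lam * card (Q \ Q')`.
-/

set_option autoImplicit false

namespace LIN

open Finset

/-- the bound for the degrees in a core (used in the leaf LS) -/
def DD : ℕ := 2 ^ 32

theorem hitting_set {X Y : Type} [DecidableEq X] [DecidableEq Y] (P : Finset X) (Q : Finset Y) (R : X → Finset Y) (j lam D : ℕ)
    (hR : ∀ x ∈ P, R x ⊆ Q ∧ D ≤ (R x).card) (hj : j ≤ D) :
    ∃ Q' ⊆ Q, lam * Q'.card ≤ j * P.card ∧ (D - j + 1) * (P.filter fun x => (R x ∩ Q').card < j).card ≤ lam * Q.card := by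
  obtain ⟨Φ, hΦ⟩ : ∃ Φ : Finset Y → ℕ, ∀ Z, Φ Z = ∑ x ∈ P, (j - (R x ∩ Z).card) + lam * Z.card :=
    ⟨_, fun Z => rfl⟩
  obtain ⟨Q', hQ', hmin⟩ := Finset.exists_min_image Q.powerset Φ ⟨∅, Finset.empty_mem_powerset Q⟩
  have hQ'Q : Q' ⊆ Q := Finset.mem_powerset.1 hQ'
  refine ⟨Q', hQ'Q, ?_, ?_⟩
  · have h1 := hmin ∅ (Finset.empty_mem_powerset Q)
    rw [hΦ, hΦ] at h1
    have h2 : ∑ x ∈ P, (j - (R x ∩ ∅).card) = j * P.card := by
      rw [Finset.sum_congr rfl fun x _ => by rw [Finset.inter_empty, Finset.card_empty, Nat.sub_zero],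
        Finset.sum_const, smul_eq_mul, mul_comm]
    rw [h2, Finset.card_empty, mul_zero, add_zero] at h1
    omega
  · have hBy : ∀ y ∈ Q \ Q', ((P.filter fun x => (R x ∩ Q').card < j).filter fun x => y ∈ R x).card ≤ lam := by
      intro y hy
      obtain ⟨hyQ, hyQ'⟩ := Finset.mem_sdiff.1 hy
      have h1 := hmin (insert y Q') (Finset.mem_powerset.2 (Finset.insert_subset hyQ hQ'Q))
      rw [hΦ, hΦ, Finset.card_insert_of_notMem hyQ', mul_add, mul_one] at h1
      have h2 : ∑ x ∈ P, ((j - (R x ∩ insert y Q').card) + if (R x ∩ Q').card < j ∧ y ∈ R x then 1 else 0) ≤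
          ∑ x ∈ P, (j - (R x ∩ Q').card) := by
        refine Finset.sum_le_sum fun x _ => ?_
        by_cases hyR : y ∈ R x
        · rw [Finset.inter_insert_of_mem hyR, Finset.card_insert_of_notMem
            (fun h => hyQ' (Finset.mem_inter.1 h).2)]
          split_ifs with h
          · have := h.1
            omega
          · omega
        · rw [if_neg (fun h => hyR h.2), Finset.inter_insert_of_notMem hyR, add_zero]
      rw [Finset.sum_add_distrib, ← Finset.card_filter] at h2
      rw [Finset.filter_filter]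
      omega
    have hdc := Finset.sum_card_bipartiteAbove_eq_sum_card_bipartiteBelow
      (s := P.filter fun x => (R x ∩ Q').card < j) (t := Q \ Q') (fun x y => y ∈ R x)
    have h3 : ∑ y ∈ Q \ Q', ((P.filter fun x => (R x ∩ Q').card < j).bipartiteBelow (fun x y => y ∈ R x) y).card ≤
        lam * Q.card := by
      refine (Finset.sum_le_card_nsmul _ _ lam fun y hy => hBy y hy).trans ?_
      rw [smul_eq_mul, mul_comm]
      exact Nat.mul_le_mul_left _ (Finset.card_le_card Finset.sdiff_subset)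
    rw [← hdc] at h3
    refine le_trans ?_ h3
    rw [mul_comm, ← smul_eq_mul, ← Finset.sum_const]
    refine Finset.sum_le_sum fun x hx => ?_
    obtain ⟨hxP, hxj⟩ := Finset.mem_filter.1 hx
    obtain ⟨hRQ, hD⟩ := hR x hxP
    have h4 : R x \ Q' ⊆ (Q \ Q').bipartiteAbove (fun x y => y ∈ R x) x := by
      intro y hy
      obtain ⟨hy1, hy2⟩ := Finset.mem_sdiff.1 hy
      exact Finset.mem_filter.2 ⟨Finset.mem_sdiff.2 ⟨hRQ hy1, hy2⟩, hy1⟩
    refine le_trans ?_ (Finset.card_le_card h4)
    have h5 := Finset.card_sdiff_add_card_inter (R x) Q'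
    omega

end LIN
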