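import Pool.Agent.Lib.MP_0087d5_lcMT.CB
import Pool.Agent.Lib.MP_0087d5_lcLI.LDefs

/-!
# Block C: the test with two walks is in NC
-/

set_option autoImplicit false
set_option linter.all false

namespace LIN

open Finset Pool.Agent Pool.Agent.PMNC Pool.Agent.FRC.Uni MTC

section
variable {n : ℕ}

/-- the exponents of the test -/
noncomputable def zW2 (K q : ℕ) (A : SimpleGraph (Fin n)) (g y : ℤ) (t : ℕ) (y' : ℤ) (t' : ℕ) (u v : Fin n) : ℕ :=
  K * (rz q (zr A g y t u) * (v : ℕ) + rz q (zr A g y t v) * (u : ℕ)) +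
    (rz q (zr A g y' t' u) * (v : ℕ) + rz q (zr A g y' t' v) * (u : ℕ))

/-- the matrix of the test for the graph `G`; the symbols are read off from the graph `A` -/
noncomputable def zM2 (K q : ℕ) (G A : SimpleGraph (Fin n)) (g y : ℤ) (t : ℕ) (y' : ℤ) (t' : ℕ) (x : ℤ) (u v : Fin n) : ℤ :=
  zB G u v * x ^ zW2 K q A g y t y' t' u v

end

section
variable {S : ℕ → Type} [Env S] {n : ℕ}

/-- the test of the graph `G` with the source `A`; the parameters are `K, q, g, y, t, y', t', p, x` -/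
def acc2 (G A : SimpleGraph (Fin n)) (e : S n × (S n × (S n × (S n × (S n × (S n × (S n × (S n × S n)))))))) : Prop :=
  prS e.2.2.2.2.2.2.2.1 ∧ (¬ nv e.2.1 = 0) ∧
    nd e.2.2.2.2.2.2.2.1 (zdet (T := fun n => Fin n)
      (zM2 (nv e.1) (nv e.2.1) G A (nv e.2.2.1) (nv e.2.2.2.1) (nv e.2.2.2.2.1) (nv e.2.2.2.2.2.1) (nv e.2.2.2.2.2.2.1) (nv e.2.2.2.2.2.2.2.2)))

end

section def_
variable {E S B : ℕ → Type} [Env E] [Env S] [Env B] [∀ n, Fintype (S n)]
  {A T : ∀ n : ℕ, SimpleGraph (Fin n) → B n → SimpleGraph (Fin n)}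

/-- the entries of the matrix of the test; zero if `q = 0` -/
theorem defZ_zM2 (hA : DefP (E := fun n => B n × (Fin n × Fin n)) (fun n G X y => (A n G y.1).Adj y.2.1 y.2.2))
    (hT : DefP (E := fun n => B n × (Fin n × Fin n)) (fun n G X y => (T n G y.1).Adj y.2.1 y.2.2))
    {b : ∀ n : ℕ, E n → B n} (hb : Tm b) {K q g y t y' t' p x : ∀ n : ℕ, E n → S n} (hK : Tm K) (hq : Tm q)
    (hg : Tm g) (hy : Tm y) (ht : Tm t) (hy' : Tm y') (ht' : Tm t') (hp : Tm p) (hx : Tm x)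
    {u v : ∀ n : ℕ, E n → Fin n} (hu : Tm (F := fun n => Fin n) u) (hv : Tm (F := fun n => Fin n) v) :
    DefZ p (fun n G X e => cnd (nv (q n e) = 0) 0 (zM2 (nv (K n e)) (nv (q n e)) (T n G (b n e)) (A n G (b n e)) (nv (g n e))
      (nv (y n e)) (nv (t n e)) (nv (y' n e)) (nv (t' n e)) (nv (x n e)) (u n e) (v n e))) := by
  have hX := DefZ.nv' (H := S) hp hx
  have hXK := DefZ.pow (H := S) hp hX hK
  have h1 := defZ_powr hp hq (defZ_zr hA hb hq hg hy ht hv) (DefZ.pow (H := fun n => Fin n) hp hXK hu)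
  have h2 := defZ_powr hp hq (defZ_zr hA hb hq hg hy ht hu) (DefZ.pow (H := fun n => Fin n) hp hXK hv)
  have h3 := defZ_powr hp hq (defZ_zr hA hb hq hg hy' ht' hv) (DefZ.pow (H := fun n => Fin n) hp hX hu)
  have h4 := defZ_powr hp hq (defZ_zr hA hb hq hg hy' ht' hu) (DefZ.pow (H := fun n => Fin n) hp hX hv)
  have hB : DefZ p (fun n G X e => zB (T n G (b n e)) (u n e) (v n e)) := by
    unfold zB
    exact DefZ.ite (DefP.comp (F := fun n => B n × (Fin n × Fin n)) (f := fun n x => (b n x, (u n x, v n x))) hT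
      (Tm.pair hb (Tm.pair (F := fun n => Fin n) (H := fun n => Fin n) hu hv))) (DefZ.ite (DefP.lt hu hv) (DefZ.one hp) (DefZ.neg hp (DefZ.one hp))) (DefZ.zero hp)
  refine (DefZ.mul hp hB (DefZ.mul hp (DefZ.mul hp h2 h1) (DefZ.mul hp h4 h3))).congr fun n G X e => ?_
  by_cases h0 : nv (q n e) = 0
  · rw [cnd_pos h0, cnd_pos h0, cnd_pos h0, cnd_pos h0, cnd_pos h0]
    ring
  · rw [cnd_neg h0, cnd_neg h0, cnd_neg h0, cnd_neg h0, cnd_neg h0, nv_fin, nv_fin]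
    unfold zM2 zW2
    generalize rz (nv (q n e)) (zr (A n G (b n e)) (nv (g n e)) (nv (y n e)) (nv (t n e)) (u n e : ℕ)) = a1
    generalize rz (nv (q n e)) (zr (A n G (b n e)) (nv (g n e)) (nv (y n e)) (nv (t n e)) (v n e : ℕ)) = a2
    generalize rz (nv (q n e)) (zr (A n G (b n e)) (nv (g n e)) (nv (y' n e)) (nv (t' n e)) (u n e : ℕ)) = a3
    generalize rz (nv (q n e)) (zr (A n G (b n e)) (nv (g n e)) (nv (y' n e)) (nv (t' n e)) (v n e : ℕ)) = a4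
    ring

theorem defP_acc2 (hA : DefP (E := fun n => B n × (Fin n × Fin n)) (fun n G X y => (A n G y.1).Adj y.2.1 y.2.2))
    (hT : DefP (E := fun n => B n × (Fin n × Fin n)) (fun n G X y => (T n G y.1).Adj y.2.1 y.2.2)) :
    DefP (E := fun n => B n × (S n × (S n × (S n × (S n × (S n × (S n × (S n × (S n × S n))))))))) (fun n G X e => acc2 (T n G e.1) (A n G e.1) e.2) := by
  have T1 : Tm (E := fun n => B n × (S n × (S n × (S n × (S n × (S n × (S n × (S n × (S n × S n))))))))) (F := S) (fun n e => e.2.1) := Tm.fst (Tm.snd Tm.id)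
  have T2 : Tm (E := fun n => B n × (S n × (S n × (S n × (S n × (S n × (S n × (S n × (S n × S n))))))))) (F := S) (fun n e => e.2.2.1) := Tm.fst (Tm.snd (Tm.snd Tm.id))
  have T3 : Tm (E := fun n => B n × (S n × (S n × (S n × (S n × (S n × (S n × (S n × (S n × S n))))))))) (F := S) (fun n e => e.2.2.2.1) := Tm.fst (Tm.snd (Tm.snd (Tm.snd Tm.id)))
  have T4 : Tm (E := fun n => B n × (S n × (S n × (S n × (S n × (S n × (S n × (S n × (S n × S n))))))))) (F := S) (fun n e => e.2.2.2.2.1) := Tm.fst (Tm.snd (Tm.snd (Tm.snd (Tm.snd Tm.id))))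
  have T5 : Tm (E := fun n => B n × (S n × (S n × (S n × (S n × (S n × (S n × (S n × (S n × S n))))))))) (F := S) (fun n e => e.2.2.2.2.2.1) := Tm.fst (Tm.snd (Tm.snd (Tm.snd (Tm.snd (Tm.snd Tm.id)))))
  have T6 : Tm (E := fun n => B n × (S n × (S n × (S n × (S n × (S n × (S n × (S n × (S n × S n))))))))) (F := S) (fun n e => e.2.2.2.2.2.2.1) := Tm.fst (Tm.snd (Tm.snd (Tm.snd (Tm.snd (Tm.snd (Tm.snd Tm.id))))))
  have T7 : Tm (E := fun n => B n × (S n × (S n × (S n × (S n × (S n × (S n × (S n × (S n × S n))))))))) (F := S) (fun n e => e.2.2.2.2.2.2.2.1) := Tm.fst (Tm.snd (Tm.snd (Tm.snd (Tm.snd (Tm.snd (Tm.snd (Tm.snd Tm.id)))))))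
  have T8 : Tm (E := fun n => B n × (S n × (S n × (S n × (S n × (S n × (S n × (S n × (S n × S n))))))))) (F := S) (fun n e => e.2.2.2.2.2.2.2.2.1) := Tm.fst (Tm.snd (Tm.snd (Tm.snd (Tm.snd (Tm.snd (Tm.snd (Tm.snd (Tm.snd Tm.id))))))))
  have T9 : Tm (E := fun n => B n × (S n × (S n × (S n × (S n × (S n × (S n × (S n × (S n × S n))))))))) (F := S) (fun n e => e.2.2.2.2.2.2.2.2.2) := Tm.snd (Tm.snd (Tm.snd (Tm.snd (Tm.snd (Tm.snd (Tm.snd (Tm.snd (Tm.snd Tm.id))))))))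
  have hc : ∀ {f : ∀ n : ℕ, (B n × (S n × (S n × (S n × (S n × (S n × (S n × (S n × (S n × S n))))))))) → S n}, Tm f →
      Tm (fun n (y : (B n × (S n × (S n × (S n × (S n × (S n × (S n × (S n × (S n × S n))))))))) × (Fin n × Fin n)) => f n y.1) :=
    fun hf => hf.comp (Tm.fst Tm.id)
  have hM := defZ_zM2 (E := fun n => (B n × (S n × (S n × (S n × (S n × (S n × (S n × (S n × (S n × S n))))))))) × (Fin n × Fin n)) hA hT
    (b := fun n y => y.1.1) (Tm.fst (Tm.fst Tm.id))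
    (hc T1) (hc T2) (hc T3) (hc T4) (hc T5) (hc T6) (hc T7) (hc T8) (hc T9) (u := fun n y => y.2.1) (v := fun n y => y.2.2)
    (Tm.fst (Tm.snd Tm.id)) (Tm.snd (Tm.snd Tm.id))
  have hD := DefZ.det (E := fun n => B n × (S n × (S n × (S n × (S n × (S n × (S n × (S n × (S n × S n))))))))) (T := fun n => Fin n)
    (M := fun n G X (e : B n × (S n × (S n × (S n × (S n × (S n × (S n × (S n × (S n × S n))))))))) u v =>
      cnd (nv e.2.2.1 = 0) 0 (zM2 (nv e.2.1) (nv e.2.2.1) (T n G e.1) (A n G e.1) (nv e.2.2.2.1) (nv e.2.2.2.2.1)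
        (nv e.2.2.2.2.2.1) (nv e.2.2.2.2.2.2.1) (nv e.2.2.2.2.2.2.2.1) (nv e.2.2.2.2.2.2.2.2.2) u v)) T8 hM
  refine DefP.congr (DefP.and (DefP.prS T8) (DefP.and (DefP.not (DefP.nZero T2)) (DefZ.ndvd T8 hD))) fun n G X e => ?_
  by_cases h0 : nv e.2.2.1 = 0
  · exact ⟨fun h => absurd h0 h.2.1, fun h => absurd h0 h.2.1⟩
  · have hE : (fun u v : Fin n => cnd (nv e.2.2.1 = 0) 0 (zM2 (nv e.2.1) (nv e.2.2.1) (T n G e.1)
        (A n G e.1) (nv e.2.2.2.1) (nv e.2.2.2.2.1) (nv e.2.2.2.2.2.1) (nv e.2.2.2.2.2.2.1) (nv e.2.2.2.2.2.2.2.1) (nv e.2.2.2.2.2.2.2.2.2) u v)) =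
        zM2 (nv e.2.1) (nv e.2.2.1) (T n G e.1) (A n G e.1) (nv e.2.2.2.1) (nv e.2.2.2.2.1)
        (nv e.2.2.2.2.2.1) (nv e.2.2.2.2.2.2.1) (nv e.2.2.2.2.2.2.2.1) (nv e.2.2.2.2.2.2.2.2.2) := by
      funext u v
      exact cnd_neg h0 _ _
    unfold acc2 nd zdet
    rw [hE]

end def_

section
variable {n : ℕ}

theorem zW2_symm (K q : ℕ) (A : SimpleGraph (Fin n)) (g y : ℤ) (t : ℕ) (y' : ℤ) (t' : ℕ) (u v : Fin n) :
    zW2 K q A g y t y' t' u v = zW2 K q A g y t y' t' v u := by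
  unfold zW2
  rw [add_comm (rz q (zr A g y t u) * (v : ℕ)), add_comm (rz q (zr A g y' t' u) * (v : ℕ))]

theorem acc2_sound {S : ℕ → Type} [Env S] [∀ n, Fintype (S n)] (G A : SimpleGraph (Fin n))
    {e : S n × (S n × (S n × (S n × (S n × (S n × (S n × (S n × S n)))))))} (h : acc2 G A e) : HasPM G := by
  classical
  obtain ⟨-, -, hd⟩ := h
  have hd := hd.2
  rw [zdet_eq (T := fun n => Fin n) inferInstance] at hd
  refine exists_pm_of_det (G := G) (Matrix.of (zM2 (nv e.1) (nv e.2.1) G A (nv e.2.2.1) (nv e.2.2.2.1) (nv e.2.2.2.2.1) (nv e.2.2.2.2.2.1)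
    (nv e.2.2.2.2.2.2.1) (nv e.2.2.2.2.2.2.2.2))) ?_ ?_ ?_ ?_
  · intro v
    show zM2 _ _ _ _ _ _ _ _ _ _ v v = 0
    unfold zM2
    rw [zB_diag, zero_mul]
  · intro u v
    show zM2 _ _ _ _ _ _ _ _ _ _ u v = - zM2 _ _ _ _ _ _ _ _ _ _ v u
    unfold zM2
    rw [zB_skew, zW2_symm, neg_mul]
  · intro u v huv
    exact zB_adj G (left_ne_zero_of_mul huv)
  · intro h0
    apply hd
    rw [h0]
    exact dvd_zero _

theorem WT2_eq (K q : ℕ) [NeZero q] (A : SimpleGraph (Fin n)) (g y : ZMod q) (t : ℕ) (y' : ZMod q) (t' : ℕ) :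
    WT2 K q A g y t y' t' = zW2 K q A (g.val : ℤ) (y.val : ℤ) t (y'.val : ℤ) t' := by
  funext u v
  unfold WT2 zW2 w2 rG
  rw [rz_eq, rz_eq, rz_eq, rz_eq, cast_zr, cast_zr, cast_zr, cast_zr]
  simp only [Int.cast_natCast, ZMod.natCast_zmod_val]

theorem zW2_lt {C K q t t' : ℕ} (hn : 2 ≤ n) (A : SimpleGraph (Fin n)) (g y y' : ℤ) (hq0 : 0 < q)
    (hK : K ≤ n ^ C) (hq : q ≤ n ^ C) (u v : Fin n) : zW2 K q A g y t y' t' u v < n ^ (2 * C + 5) := by
  have h2 : ∀ (a : ℤ) (w : Fin n), rz q a * (w : ℕ) ≤ n ^ C * n := fun a w =>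
    Nat.mul_le_mul ((rz_lt hq0 a).le.trans hq) w.2.le
  have h3 : zW2 K q A g y t y' t' u v ≤ n ^ C * (n ^ C * n + n ^ C * n) + (n ^ C * n + n ^ C * n) :=
    Nat.add_le_add (Nat.mul_le_mul hK (Nat.add_le_add (h2 _ _) (h2 _ _))) (Nat.add_le_add (h2 _ _) (h2 _ _))
  have hC : 1 ≤ n ^ C := Nat.one_le_pow _ _ (by omega)
  have h4 : n ^ C * (n ^ C * n + n ^ C * n) + (n ^ C * n + n ^ C * n) < n ^ (2 * C + 5) := by
    have e : n ^ (2 * C + 5) = n ^ C * (n ^ C * n) * n ^ 4 := by ring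
    rw [e]
    have h6 : 16 ≤ n ^ 4 := by
      calc 16 = 2 ^ 4 := by norm_num
        _ ≤ n ^ 4 := Nat.pow_le_pow_left hn 4
    have h7 : 1 ≤ n ^ C * n := Nat.one_le_iff_ne_zero.2 (by positivity)
    generalize n ^ C * n = b at *
    have h8 : b ≤ n ^ C * b := Nat.le_mul_of_pos_left _ (by omega)
    have h9 : n ^ C * (b + b) = n ^ C * b + n ^ C * b := by ring
    have h10 : n ^ C * b * 16 ≤ n ^ C * b * n ^ 4 := Nat.mul_le_mul_left _ h6
    rw [h9]
    generalize n ^ C * b = a at *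
    omega
  omega

theorem acc2_complete {S : ℕ → Type} [Env S] [∀ n, Fintype (S n)] {C : ℕ} (hS : 2 * C + 12 ≤ dim S) (hn : 2 ≤ n)
    (G A : SimpleGraph (Fin n)) (K q t t' : ℕ) (g y y' : ZMod q) (hq : q.Prime) (hK : K ≤ n ^ C)
    (hqC : q ≤ n ^ C) (ht : t ≤ 2 * n) (ht' : t' ≤ 2 * n) (hi : Iso G (WT2 K q A g y t y' t')) :
    ∃ e : S n × (S n × (S n × (S n × (S n × (S n × (S n × (S n × S n))))))), acc2 G A e := by
  classical
  haveI : NeZero q := ⟨hq.ne_zero⟩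
  have hpow : n ^ C < n ^ dim S := Nat.pow_lt_pow_right (by omega) (by omega)
  obtain ⟨p₀, hp₀, hlt, hle⟩ := Nat.exists_prime_lt_and_le_two_mul (n ^ (2 * C + 8)) (by positivity)
  have hp1 : p₀ < n ^ dim S := by
    calc p₀ ≤ 2 * n ^ (2 * C + 8) := hle
      _ ≤ n * n ^ (2 * C + 8) := Nat.mul_le_mul_right _ hn
      _ = n ^ (2 * C + 9) := by ring
      _ < n ^ dim S := Nat.pow_lt_pow_right (by omega) (by omega)
  obtain ⟨p, rfl⟩ := nv_surj (S := S) hp1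
  obtain ⟨K', rfl⟩ := nv_surj (S := S) (n := n) (m := K) (lt_of_le_of_lt hK hpow)
  obtain ⟨g₁, hg₁⟩ := nv_surj (S := S) (n := n) (m := g.val) (lt_of_lt_of_le (ZMod.val_lt g) (hqC.trans hpow.le))
  obtain ⟨y₁, hy₁⟩ := nv_surj (S := S) (n := n) (m := y.val) (lt_of_lt_of_le (ZMod.val_lt y) (hqC.trans hpow.le))
  obtain ⟨y₂, hy₂⟩ := nv_surj (S := S) (n := n) (m := y'.val) (lt_of_lt_of_le (ZMod.val_lt y') (hqC.trans hpow.le))
  have hb : ∀ {t : ℕ}, t ≤ 2 * n → t < n ^ dim S := by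
    intro t ht
    calc t ≤ n * n := ht.trans (Nat.mul_le_mul_right _ hn)
      _ = n ^ 2 := by ring
      _ < n ^ dim S := Nat.pow_lt_pow_right (by omega) (by omega)
  obtain ⟨t₁, rfl⟩ := nv_surj (S := S) (n := n) (m := t) (hb ht)
  obtain ⟨t₂, rfl⟩ := nv_surj (S := S) (n := n) (m := t') (hb ht')
  obtain ⟨q', hq'⟩ := nv_surj (S := S) (n := n) (m := q) (lt_of_le_of_lt hqC hpow)
  haveI : Fact (nv p).Prime := ⟨hp₀⟩
  have hW : WT2 (nv K') q A g y (nv t₁) y' (nv t₂) =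
      zW2 (nv K') (nv q') A (nv g₁) (nv y₁) (nv t₁) (nv y₂) (nv t₂) := by
    rw [WT2_eq, hg₁, hy₁, hy₂, hq']
  rw [hW] at hi
  have hd := det_ne p G _ (zW2_symm _ _ A _ _ _ _ _) hi
  have hw : Wok (T := fun n => Fin n) p (fun _ => False)
      (zW2 (nv K') (nv q') A (nv g₁) (nv y₁) (nv t₁) (nv y₂) (nv t₂)) (n ^ (2 * C + 5)) := by
    refine ⟨fun r c h => h.elim False.elim False.elim, zW2_symm _ _ A _ _ _ _ _, fun u v => ?_, ?_⟩
    · exact zW2_lt hn A _ _ _ (by rw [hq']; exact hq.pos) hK (by rw [hq']; exact hqC) u v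
    · rw [Fintype.card_fin]
      refine lt_of_le_of_lt ?_ hlt
      calc 2 * n * n ^ (2 * C + 5) ≤ n * n * n ^ (2 * C + 5) := Nat.mul_le_mul_right _ (Nat.mul_le_mul_right _ hn)
        _ = n ^ (2 * C + 7) := by ring
        _ ≤ n ^ (2 * C + 8) := Nat.pow_le_pow_right (by omega) (by omega)
  have h := (det_iff (T := fun n => Fin n) (B := zB G) hw).2 (use_inst (P := fun i => @Matrix.det (Fin n) i _ _ _
    (wM (T := fun n => Fin n) p (zW2 (nv K') (nv q') A (nv g₁) (nv y₁) (nv t₁) (nv y₂) (nv t₂)) (zB G)) ≠ 0) _ hd)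
  obtain ⟨x, hx⟩ := h
  refine ⟨(K', (q', (g₁, (y₁, (t₁, (y₂, (t₂, (p, x)))))))), (prS_iff p).2 hp₀, ?_, ?_⟩
  · show ¬ nv q' = 0
    rw [hq']
    exact hq.ne_zero
  · rw [zdet_eq (T := fun n => Fin n) (fun a b => Classical.propDecidable (a = b))]
    exact hx

end

/-- **the test is definable in FO[log^k]**: `T n G e` is the tested graph, `A n G e` is the source of the symbols, `e` are parameters -/
theorem nc2_def (C : ℕ) {B : ℕ → Type} [Env B] {A T : ∀ n : ℕ, SimpleGraph (Fin n) → B n → SimpleGraph (Fin n)}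
    (hA : DefP (E := fun n => B n × (Fin n × Fin n)) (fun n G X y => (A n G y.1).Adj y.2.1 y.2.2))
    (hT : DefP (E := fun n => B n × (Fin n × Fin n)) (fun n G X y => (T n G y.1).Adj y.2.1 y.2.2)) :
    ∃ P : ∀ n : ℕ, SimpleGraph (Fin n) → B n → Prop, DefP (fun n G X e => P n G e) ∧ (∀ n G e, P n G e → HasPM (T n G e)) ∧
    ∀ n : ℕ, 2 ≤ n → ∀ (G : SimpleGraph (Fin n)) (e : B n), OK2 C (T n G e) (A n G e) → P n G e := by
  obtain ⟨S, i1, i2, hS⟩ := exists_SS (2 * C + 12)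
  refine ⟨fun n G e => ∃ a : S n × (S n × (S n × (S n × (S n × (S n × (S n × (S n × S n))))))), acc2 (T n G e) (A n G e) a, ?_, ?_, ?_⟩
  · exact DefP.ex (F := fun n => S n × (S n × (S n × (S n × (S n × (S n × (S n × (S n × S n)))))))) (defP_acc2 hA hT)
  · rintro n G e ⟨a, ha⟩
    exact acc2_sound _ _ ha
  · rintro n hn G e ⟨K, q, t, t', g, y, y', hq, hK, hqC, ht, ht', hi⟩
    exact acc2_complete (by omega) hn _ _ K q t t' g y y' hq hK hqC ht ht' hi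

/-- **the test is in NC** -/
theorem nc2_defP (C : ℕ) {A T : ∀ n : ℕ, SimpleGraph (Fin n) → SimpleGraph (Fin n)}
    (hA : DefP (E := fun n => Fin n × Fin n) (fun n G X y => (A n G).Adj y.1 y.2))
    (hT : DefP (E := fun n => Fin n × Fin n) (fun n G X y => (T n G).Adj y.1 y.2)) :
    ∃ P : ∀ n : ℕ, SimpleGraph (Fin n) → Prop, PMNC.InNC P ∧ (∀ n G, P n G → HasPM (T n G)) ∧
    ∀ n : ℕ, 2 ≤ n → ∀ G : SimpleGraph (Fin n), OK2 C (T n G) (A n G) → P n G := by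
  have hc : ∀ {D : ∀ n : ℕ, SimpleGraph (Fin n) → SimpleGraph (Fin n)},
      DefP (E := fun n => Fin n × Fin n) (fun n G X y => (D n G).Adj y.1 y.2) →
      DefP (E := fun n => Unit × (Fin n × Fin n)) (fun n G X y => (D n G).Adj y.2.1 y.2.2) := fun h =>
    DefP.comp (E := fun n => Unit × (Fin n × Fin n)) (F := fun n => Fin n × Fin n) (f := fun n y => y.2) h
      (Tm.snd (F := fun n => Unit) (H := fun n => Fin n × Fin n) Tm.id)
  obtain ⟨P, h1, h2, h3⟩ := nc2_def C (B := fun _ => Unit) (A := fun n G _ => A n G) (T := fun n G _ => T n G) (hc hA) (hc hT)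
  exact ⟨fun n G => P n G (), inNC_of_defP (h1.congr fun n G X e => Iff.rfl), fun n G h => h2 n G () h, fun n hn G h => h3 n hn G () h⟩

end LIN
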