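import Mathlib

/-!
# Leaf LN (easy, Mathlib only): the parameters

Proof. As in `Pool/Agent/Lib/MP_0087d5_lcMT/N1.lean` (`params`), with the prime `q` between `(4 * n ^ 5) ^ 4 = 256 * n ^ 20` and twice this number, `h = (q - 1) / (5 * n ^ 3) + 1`; `12500 * n ^ 21 < q ^ 2` holds again.
-/

set_option autoImplicit false

namespace LIN

theorem params2 {n : ℕ} (hn : 2 ≤ n) : ∃ q h : ℕ, q.Prime ∧ (4 * n ^ 5) ^ 4 ≤ q ∧ q ≤ 2 * (4 * n ^ 5) ^ 4 ∧ h ≤ q ∧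
    (h - 1) * (5 * n) * (n ^ 2 - 1) < q ∧ n ^ 2 ≤ q - 1 ∧ q ^ (3 * n) * (2 * n ^ 3) ^ (2 * n) < h ^ (5 * n) := by
  have hn1 : 1 ≤ n := by omega
  have hpow : ∀ k : ℕ, 1 ≤ n ^ k := fun k => Nat.one_le_pow _ _ hn1
  have h256 : (4 * n ^ 5) ^ 4 = 256 * n ^ 20 := by ring
  rw [h256]
  obtain ⟨q, hq, hq1, hq2⟩ := Nat.exists_prime_lt_and_le_two_mul (256 * n ^ 20)
    (by have := hpow 20; omega)
  obtain ⟨D, hD⟩ : ∃ D, D = 5 * n ^ 3 := ⟨_, rfl⟩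
  have hD0 : 0 < D := by
    have := hpow 3
    omega
  obtain ⟨m, hm⟩ : ∃ m, m = (q - 1) / D := ⟨_, rfl⟩
  have hq0 : 1 ≤ q := hq.one_lt.le
  have h1 : m * D ≤ q - 1 := by
    rw [hm]
    exact Nat.div_mul_le_self _ _
  have h2 : q ≤ (m + 1) * D := by
    have h3 := Nat.div_add_mod (q - 1) D
    have h4 := Nat.mod_lt (q - 1) hD0
    rw [← hm] at h3
    have h5 : (m + 1) * D = D * m + D := by ring
    rw [h5]
    omega
  refine ⟨q, m + 1, hq, hq1.le, by omega, ?_, ?_, ?_, ?_⟩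
  · have h6 : m ≤ q - 1 := by
      rw [hm]
      exact Nat.div_le_self _ _
    omega
  · rw [Nat.add_sub_cancel]
    have h7 : 5 * n * (n ^ 2 - 1) ≤ D := by
      rw [hD]
      calc 5 * n * (n ^ 2 - 1) ≤ 5 * n * n ^ 2 := Nat.mul_le_mul_left _ (Nat.sub_le _ _)
        _ = 5 * n ^ 3 := by ring
    calc m * (5 * n) * (n ^ 2 - 1) = m * (5 * n * (n ^ 2 - 1)) := by ring
      _ ≤ m * D := Nat.mul_le_mul_left _ h7
      _ ≤ q - 1 := h1
      _ < q := by omega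
  · have h8 : n ^ 2 ≤ n ^ 20 := Nat.pow_le_pow_right hn1 (by norm_num)
    omega
  · have h9 : 12500 * n ^ 21 < q ^ 2 := by
      have h10 : (256 * n ^ 20) ^ 2 < q ^ 2 := Nat.pow_lt_pow_left hq1 (by norm_num)
      have h11 : (256 * n ^ 20) ^ 2 = 65536 * n ^ 40 := by ring
      have h12 : n ^ 21 ≤ n ^ 40 := Nat.pow_le_pow_right hn1 (by norm_num)
      omega
    have h13 : q ^ 3 * (2 * n ^ 3) ^ 2 < (m + 1) ^ 5 := by
      have h14 : q ^ 3 * (2 * n ^ 3) ^ 2 * D ^ 5 < (m + 1) ^ 5 * D ^ 5 := by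
        calc q ^ 3 * (2 * n ^ 3) ^ 2 * D ^ 5 = q ^ 3 * (12500 * n ^ 21) := by
              rw [hD]
              ring
          _ < q ^ 3 * q ^ 2 := Nat.mul_lt_mul_of_pos_left h9 (pow_pos hq.pos 3)
          _ = q ^ 5 := by ring
          _ ≤ ((m + 1) * D) ^ 5 := Nat.pow_le_pow_left h2 5
          _ = (m + 1) ^ 5 * D ^ 5 := by ring
      exact lt_of_mul_lt_mul_right h14 (Nat.zero_le _)
    have h15 := Nat.pow_lt_pow_left h13 (show n ≠ 0 by omega)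
    calc q ^ (3 * n) * (2 * n ^ 3) ^ (2 * n) = (q ^ 3 * (2 * n ^ 3) ^ 2) ^ n := by
          rw [mul_pow (q ^ 3), ← pow_mul q, ← pow_mul (2 * n ^ 3)]
      _ < ((m + 1) ^ 5) ^ n := h15
      _ = (m + 1) ^ (5 * n) := by rw [← pow_mul]

/-- the final numbers -/
theorem numbers (D : ℕ) : ∃ C : ℕ, ∀ n q : ℕ, 2 ≤ n → q ≤ 2 * (4 * n ^ 5) ^ 4 → q ≤ n ^ C ∧ 2 * n ^ 2 * q + 1 ≤ n ^ C ∧
    q ^ (5 * n) + q ^ n * (n ^ 2 + 1) ^ (2 * D * n) * q ^ (5 * n) ≤ n ^ (C * n) := by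
  refine ⟨175 + 6 * D, fun n q hn hq => ?_⟩
  have hn1 : 1 ≤ n := by omega
  have hmono : ∀ {a b : ℕ}, a ≤ b → n ^ a ≤ n ^ b := fun h => Nat.pow_le_pow_right hn1 h
  have h9 : 512 ≤ n ^ 9 := by
    calc 512 = 2 ^ 9 := by norm_num
      _ ≤ n ^ 9 := Nat.pow_le_pow_left hn 9
  have hq1 : q ≤ n ^ 29 := by
    calc q ≤ 2 * (4 * n ^ 5) ^ 4 := hq
      _ = 512 * n ^ 20 := by ring
      _ ≤ n ^ 9 * n ^ 20 := Nat.mul_le_mul_right _ h9
      _ = n ^ 29 := by ring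
  have hn2 : n ^ 2 + 1 ≤ n ^ 3 := by
    have h1 : 1 ≤ n ^ 2 := Nat.one_le_pow _ _ hn1
    calc n ^ 2 + 1 ≤ 2 * n ^ 2 := by omega
      _ ≤ n * n ^ 2 := Nat.mul_le_mul_right _ hn
      _ = n ^ 3 := by ring
  refine ⟨hq1.trans (hmono (by omega)), ?_, ?_⟩
  · have h1 : 2 * n ^ 2 * q ≤ n ^ 32 := by
      calc 2 * n ^ 2 * q ≤ n * n ^ 2 * n ^ 29 := Nat.mul_le_mul (Nat.mul_le_mul_right _ hn) hq1
        _ = n ^ 32 := by ring
    have h2 : 1 ≤ n ^ 32 := Nat.one_le_pow _ _ hn1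
    calc 2 * n ^ 2 * q + 1 ≤ 2 * n ^ 32 := by omega
      _ ≤ n * n ^ 32 := Nat.mul_le_mul_right _ hn
      _ = n ^ 33 := by ring
      _ ≤ n ^ (175 + 6 * D) := hmono (by omega)
  · have h1 : q ^ (5 * n) ≤ n ^ (145 * n) := by
      calc q ^ (5 * n) ≤ (n ^ 29) ^ (5 * n) := Nat.pow_le_pow_left hq1 _
        _ = n ^ (145 * n) := by
          rw [← pow_mul]
          congr 1
          ring
    have h2 : q ^ n ≤ n ^ (29 * n) := by
      calc q ^ n ≤ (n ^ 29) ^ n := Nat.pow_le_pow_left hq1 _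
        _ = n ^ (29 * n) := by rw [← pow_mul]
    have h3 : (n ^ 2 + 1) ^ (2 * D * n) ≤ n ^ (6 * D * n) := by
      calc (n ^ 2 + 1) ^ (2 * D * n) ≤ (n ^ 3) ^ (2 * D * n) := Nat.pow_le_pow_left hn2 _
        _ = n ^ (6 * D * n) := by
          rw [← pow_mul]
          congr 1
          ring
    have h4 : q ^ n * (n ^ 2 + 1) ^ (2 * D * n) * q ^ (5 * n) ≤ n ^ ((174 + 6 * D) * n) := by
      calc q ^ n * (n ^ 2 + 1) ^ (2 * D * n) * q ^ (5 * n) ≤ n ^ (29 * n) * n ^ (6 * D * n) * n ^ (145 * n) :=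
            Nat.mul_le_mul (Nat.mul_le_mul h2 h3) h1
        _ = n ^ ((174 + 6 * D) * n) := by
          rw [← pow_add, ← pow_add]
          congr 1
          ring
    have h5 : q ^ (5 * n) ≤ n ^ ((174 + 6 * D) * n) := by
      refine h1.trans (hmono ?_)
      exact Nat.mul_le_mul_right _ (by omega)
    calc q ^ (5 * n) + q ^ n * (n ^ 2 + 1) ^ (2 * D * n) * q ^ (5 * n) ≤ 2 * n ^ ((174 + 6 * D) * n) := by omega
      _ ≤ n ^ n * n ^ ((174 + 6 * D) * n) := by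
        refine Nat.mul_le_mul_right _ (hn.trans ?_)
        calc n = n ^ 1 := (pow_one n).symm
          _ ≤ n ^ n := hmono hn1
      _ = n ^ ((175 + 6 * D) * n) := by
        rw [← pow_add]
        congr 1
        ring

end LIN
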