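import Pool.Agent.Lib.MP_0087d5_lcMT.W2

/-!
# Leaf LP (medium): potentials on the union of the perfect matchings of least weight

Proof. Take `L` from `MTC.key`. Let `E` be the real vector space of the functions `V → V → ℝ` (or functions on `V × V`), and `K` the subspace of the `v` with `v a b = v b a` for all `a b` and `v a b = 0` unless `HG A w a b` (`HG` is symmetric:
`f` is an involution; and irreflexive because `A` is). On `K` take the linear functionals `v ↦ ∑ b, v a b` (`a : V`), `v ↦ cut v S` (`S ∈ L`; the index type is `V ⊕ {S // S ∈ L}`) and `v ↦ ∑ a, ∑ b, w a b * v a b`. By `key` the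
last one vanishes on the common kernel of the others, so it is a linear combination of them (`mem_span_of_iInf_ker_le_ker`, then `Submodule.mem_span_range_iff_exists_fun` or `Finsupp.mem_span_range_iff_exists_finsupp`):
`∑ a b, w a b * v a b = ∑ a, y a * ∑ b, v a b + ∑ S ∈ L, z S * cut v S` for all `v ∈ K`. Put `v = e_(a, b) + e_(b, a)` for `HG A w a b` (so `a ≠ b`): the left side is `w a b + w b a = 2 * w a b`, the row sums are `1` at `a` and `b` and `0` elsewhere,
and `cut v S` is `1` if exactly one of `a, b` is in `S`, otherwise `0`; that is `[a ∈ S] + [b ∈ S] - 2 [a ∈ S ∧ b ∈ S]`. So `2 w a b = (y a + ∑ S ∋ a, z S) + (y b + ∑ S ∋ b, z S) - 2 ∑ S ∋ a, b, z S`. Take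
`α a = (y a + ∑ S ∈ L with a ∈ S, z S) / 2`.
-/

set_option autoImplicit false

namespace LIN

open Finset MTC

/-- the evaluation at a pair -/
private noncomputable def LP_ev {V : Type} (a b : V) : (V → V → ℝ) →ₗ[ℝ] ℝ where
  toFun v := v a b
  map_add' _ _ := rfl
  map_smul' _ _ := rfl

private theorem LP_ev_apply {V : Type} (a b : V) (v : V → V → ℝ) : LP_ev a b v = v a b := rfl

open Classical in
/-- the functionals -/
private noncomputable def LP_F {V : Type} [Fintype V] [DecidableEq V] (A : V → V → Prop) (w : V → V → ℕ)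
    (L : Finset (Finset V)) : (V ⊕ {S // S ∈ L}) ⊕ ((V × V) ⊕ (V × V)) → (V → V → ℝ) →ₗ[ℝ] ℝ
  | .inl (.inl a) => ∑ b, LP_ev a b
  | .inl (.inr S) => ∑ u ∈ S.1, ∑ v ∈ S.1ᶜ, LP_ev u v
  | .inr (.inl p) => LP_ev p.1 p.2 - LP_ev p.2 p.1
  | .inr (.inr p) => if HG A w p.1 p.2 then 0 else LP_ev p.1 p.2

/-- the matrix of the pair `a, b` -/
private noncomputable def LP_e {V : Type} [DecidableEq V] (a b x y : V) : ℝ :=
  (if x = a ∧ y = b then 1 else 0) + (if x = b ∧ y = a then 1 else 0)

private theorem LP_sum2 {V : Type} [Fintype V] [DecidableEq V] (S T : Finset V) (c : V → V → ℝ) (a b : V) :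
    ∑ x ∈ S, ∑ y ∈ T, c x y * (if x = a ∧ y = b then 1 else 0) = if a ∈ S ∧ b ∈ T then c a b else 0 := by
  have h1 : ∀ x ∈ S, ∑ y ∈ T, c x y * (if x = a ∧ y = b then 1 else 0) =
      if x = a then (if b ∈ T then c a b else 0) else 0 := by
    intro x _
    by_cases hx : x = a
    · subst hx
      rw [if_pos rfl]
      by_cases hb : b ∈ T
      · rw [if_pos hb, Finset.sum_eq_single b]
        · rw [if_pos ⟨rfl, rfl⟩, mul_one]
        · intro y _ hy
          rw [if_neg fun h => hy h.2, mul_zero]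
        · intro h
          exact absurd hb h
      · rw [if_neg hb]
        refine Finset.sum_eq_zero fun y hy => ?_
        rw [if_neg, mul_zero]
        rintro ⟨-, rfl⟩
        exact hb hy
    · rw [if_neg hx]
      refine Finset.sum_eq_zero fun y _ => ?_
      rw [if_neg fun h => hx h.1, mul_zero]
  rw [Finset.sum_congr rfl h1]
  by_cases ha : a ∈ S
  · rw [Finset.sum_eq_single a]
    · rw [if_pos rfl]
      by_cases hb : b ∈ T
      · rw [if_pos hb, if_pos ⟨ha, hb⟩]
      · rw [if_neg hb, if_neg fun h => hb h.2]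
    · intro x _ hx
      rw [if_neg hx]
    · intro h
      exact absurd ha h
  · have h2 : ¬ (a ∈ S ∧ b ∈ T) := fun h => ha h.1
    rw [if_neg h2]
    refine Finset.sum_eq_zero fun x hx => ?_
    rw [if_neg]
    rintro rfl
    exact ha hx

private theorem LP_sumE {V : Type} [Fintype V] [DecidableEq V] (S T : Finset V) (c : V → V → ℝ) (a b : V) :
    ∑ x ∈ S, ∑ y ∈ T, c x y * LP_e a b x y =
      (if a ∈ S ∧ b ∈ T then c a b else 0) + (if b ∈ S ∧ a ∈ T then c b a else 0) := by
  rw [← LP_sum2 S T c a b, ← LP_sum2 S T c b a, ← Finset.sum_add_distrib]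
  refine Finset.sum_congr rfl fun x _ => ?_
  rw [← Finset.sum_add_distrib]
  refine Finset.sum_congr rfl fun y _ => ?_
  unfold LP_e
  rw [mul_add]

private theorem LP_symm {V : Type} [DecidableEq V] (a b x y : V) : LP_e a b x y = LP_e a b y x := by
  unfold LP_e
  rw [add_comm]
  exact congrArg₂ (fun s t : ℝ => s + t) (if_congr and_comm rfl rfl) (if_congr and_comm rfl rfl)

private theorem LP_HG {V : Type} [Fintype V] (A : V → V → Prop) (w : V → V → ℕ) {a b : V} (h : HG A w a b) :
    HG A w b a := by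
  obtain ⟨f, hf, rfl⟩ := h
  exact ⟨f, hf, hf.1.1 a⟩

theorem potentials {V : Type} [Fintype V] [DecidableEq V] (A : V → V → Prop) (hA : ∀ a, ¬ A a a) (w : V → V → ℕ)
    (hw : ∀ a b, w a b = w b a) (hM : ∃ f, IsPM A f) :
    ∃ L : Finset (Finset V), Lam L ∧ ∃ (α : V → ℝ) (z : Finset V → ℝ), ∀ a b, HG A w a b →
      (w a b : ℝ) = α a + α b - ∑ S ∈ L.filter (fun S => a ∈ S ∧ b ∈ S), z S := by
  classical
  obtain ⟨L, hL, hkey⟩ := key A hA w hw hM
  refine ⟨L, hL, ?_⟩
  have hker : ⨅ i, LinearMap.ker (LP_F A w L i) ≤ LinearMap.ker (∑ a, ∑ b, (w a b : ℝ) • LP_ev a b) := by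
    intro v hv
    rw [Submodule.mem_iInf] at hv
    have e1 : ∀ a, ∑ b, v a b = 0 := by
      intro a
      have h := LinearMap.mem_ker.1 (hv (.inl (.inl a)))
      simpa only [LP_F, LinearMap.sum_apply, LP_ev_apply] using h
    have e2 : ∀ S ∈ L, cut v S = 0 := by
      intro S hS
      have h := LinearMap.mem_ker.1 (hv (.inl (.inr ⟨S, hS⟩)))
      unfold cut
      simpa only [LP_F, LinearMap.sum_apply, LP_ev_apply] using h
    have e3 : ∀ a b, v a b = v b a := by
      intro a b
      have h := LinearMap.mem_ker.1 (hv (.inr (.inl (a, b))))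
      have h' : v a b - v b a = 0 := by
        simpa only [LP_F, LinearMap.sub_apply, LP_ev_apply] using h
      exact sub_eq_zero.1 h'
    have e4 : ∀ a b, v a b ≠ 0 → HG A w a b := by
      intro a b hab
      by_contra hne
      have h := LinearMap.mem_ker.1 (hv (.inr (.inr (a, b))))
      simp only [LP_F, if_neg hne] at h
      exact hab h
    have h5 := hkey v e3 e4 e1 e2
    rw [LinearMap.mem_ker]
    simpa only [LinearMap.sum_apply, LinearMap.smul_apply, LP_ev_apply, smul_eq_mul] using h5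
  obtain ⟨c, hc⟩ := (Submodule.mem_span_range_iff_exists_fun ℝ).1 (mem_span_of_iInf_ker_le_ker hker)
  obtain ⟨z, hz⟩ : ∃ z : Finset V → ℝ, z = fun S => if h : S ∈ L then c (.inl (.inr ⟨S, h⟩)) else 0 := ⟨_, rfl⟩
  have hzS : ∀ S : {S // S ∈ L}, c (.inl (.inr S)) = z S.1 := by
    intro S
    rw [hz]
    beta_reduce
    rw [dif_pos S.2]
  refine ⟨fun a => (c (.inl (.inl a)) + ∑ S ∈ L.filter (fun S => a ∈ S), z S) / 2, z, ?_⟩
  intro a b hab
  have hba : HG A w b a := LP_HG A w hab
  have h6 := LinearMap.congr_fun hc (LP_e a b)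
  rw [Fintype.sum_sum_type, Fintype.sum_sum_type, Fintype.sum_sum_type] at h6
  simp only [LinearMap.add_apply, LinearMap.sum_apply, LinearMap.smul_apply, smul_eq_mul] at h6
  have f1 : ∀ x : V, LP_F A w L (.inl (.inl x)) (LP_e a b) = (if x = a then 1 else 0) + (if x = b then 1 else 0) := by
    intro x
    simp only [LP_F, LinearMap.sum_apply, LP_ev_apply]
    have h7 := LP_sumE {x} univ (fun _ _ => (1 : ℝ)) a b
    simp only [Finset.sum_singleton, one_mul, Finset.mem_singleton, Finset.mem_univ, and_true] at h7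
    rw [h7]
    simp only [eq_comm]
  have f2 : ∀ S : {S // S ∈ L}, LP_F A w L (.inl (.inr S)) (LP_e a b) =
      (if a ∈ S.1 then 1 else 0) + (if b ∈ S.1 then 1 else 0) - 2 * (if a ∈ S.1 ∧ b ∈ S.1 then 1 else 0) := by
    intro S
    simp only [LP_F, LinearMap.sum_apply, LP_ev_apply]
    have h7 := LP_sumE S.1 S.1ᶜ (fun _ _ => (1 : ℝ)) a b
    simp only [one_mul, Finset.mem_compl] at h7
    rw [h7]
    by_cases ha : a ∈ S.1 <;> by_cases hb : b ∈ S.1 <;> simp [ha, hb]
    norm_num
  have f3 : ∀ p : V × V, LP_F A w L (.inr (.inl p)) (LP_e a b) = 0 := by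
    intro p
    simp only [LP_F, LinearMap.sub_apply, LP_ev_apply]
    rw [LP_symm a b p.1 p.2, sub_self]
  have f4 : ∀ p : V × V, LP_F A w L (.inr (.inr p)) (LP_e a b) = 0 := by
    rintro ⟨x, y⟩
    by_cases hxy : HG A w x y
    · simp only [LP_F, if_pos hxy, LinearMap.zero_apply]
    · simp only [LP_F, if_neg hxy, LP_ev_apply]
      unfold LP_e
      rw [if_neg, if_neg, add_zero]
      · rintro ⟨rfl, rfl⟩
        exact hxy hba
      · rintro ⟨rfl, rfl⟩
        exact hxy hab
  have f5 : ∑ x, ∑ y, (w x y : ℝ) * LP_ev x y (LP_e a b) = 2 * (w a b : ℝ) := by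
    simp only [LP_ev_apply]
    rw [LP_sumE univ univ (fun x y => (w x y : ℝ)) a b]
    simp only [Finset.mem_univ, and_self, if_true]
    rw [hw b a]
    ring
  rw [f5] at h6
  simp only [f1, f2, f3, f4, mul_zero, Finset.sum_const_zero, add_zero] at h6
  have g1 : ∑ x, c (.inl (.inl x)) * ((if x = a then (1 : ℝ) else 0) + (if x = b then 1 else 0)) =
      c (.inl (.inl a)) + c (.inl (.inl b)) := by
    simp only [mul_add, Finset.sum_add_distrib, mul_ite, mul_one, mul_zero, Finset.sum_ite_eq', Finset.mem_univ, if_true]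
  have g2 : ∀ (P : Finset V → Prop) [DecidablePred P], ∑ S ∈ L.filter P, z S = ∑ S ∈ L, z S * (if P S then 1 else 0) := by
    intro P _
    rw [Finset.sum_filter]
    exact Finset.sum_congr rfl fun S _ => by rw [mul_ite, mul_one, mul_zero]
  have g3 : ∑ S : {S // S ∈ L}, c (.inl (.inr S)) * ((if a ∈ S.1 then (1 : ℝ) else 0) + (if b ∈ S.1 then 1 else 0) -
      2 * (if a ∈ S.1 ∧ b ∈ S.1 then 1 else 0)) = ∑ S ∈ L.filter (fun S => a ∈ S), z S +
        ∑ S ∈ L.filter (fun S => b ∈ S), z S - 2 * ∑ S ∈ L.filter (fun S => a ∈ S ∧ b ∈ S), z S := by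
    rw [g2, g2, g2, Finset.mul_sum, ← Finset.sum_add_distrib, ← Finset.sum_sub_distrib,
      ← Finset.sum_coe_sort L]
    refine Finset.sum_congr rfl fun S _ => ?_
    rw [hzS]
    ring
  rw [g1, g3] at h6
  linarith

end LIN
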