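import Pool.Agent.Lib.MP_0087d5_lcLI.Hit

/-!
# Leaf LS (medium, Mathlib and Hit only): selection of `Z` and `J` (from `hitting_set`)

Proof. Let `N = card W`, `j₁ = 2049`, `D₁ = 2 ^ 21`. Type 1: the `x ∈ W` such that for some label `k` the set `{z ∈ R x | κ x z = k}` has at least `j₁` elements; choose such a set `N₁ x`. Type 2: the others; the number of the labels of `x`,
`(R x).image (κ x)`, is at least `DD / 2048 = 2 ^ 21 = D₁` (`Finset.card_le_mul_card_image`), they are in `W`.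
(a) `hitting_set` with `P` = the `x` of type 2, `Q = W`, `R` = the label sets, `j = j₁`, `lam = 16 * j₁`, `D = D₁`: a set `J ⊆ W`, `16 * j₁ * card J ≤ j₁ * N`, so `16 * card J ≤ N`; the set `U₁` of the `x` of type 2 with less than `j₁` labels in `J` has
`(D₁ - j₁ + 1) * card U₁ ≤ 16 * j₁ * N`, so `32 * card U₁ ≤ N` (as `2 ^ 21 - 2048 ≥ 32 * 16 * 2049`).
(b) for `x` of type 2 not in `U₁` let `N₁ x` be a set of at least `j₁` elements `z ∈ R x` with different labels `κ x z ∈ J` (one for each label in `J`; or simply `N₁ x = {z ∈ R x | κ x z ∈ J}`, its image under `κ x` has at least `j₁` elements, so it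
has at least `j₁` elements). `hitting_set` with `P = W \ U₁`, `Q = W`, `R = N₁`, `j = 2`, `lam = 64`, `D = j₁`: `Z₀ ⊆ W` with `64 * card Z₀ ≤ 2 * N`, and the set `U₂` of the `x` with `card (N₁ x ∩ Z₀) < 2` has `(j₁ - 1) * card U₂ ≤ 64 * N`,
`32 * card U₂ ≤ N`. Take `Z = Z₀ ∪ U₁ ∪ U₂`: `2 * (2 * card Z + card J) ≤ 4 * 3 * N / 32 + 2 * N / 16 = N / 2`. For `x ∈ W`, `x ∉ Z` there are two different `a, b ∈ N₁ x ∩ Z₀` (`Finset.one_lt_card`): type 1: the same label; type 2: both labels in `J`.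
-/

set_option autoImplicit false

namespace LIN

open Finset

theorem selection {V : Type} [DecidableEq V] (W : Finset V) (R : V → Finset V) (κ : V → V → V)
    (hR : ∀ x ∈ W, R x ⊆ W ∧ DD ≤ (R x).card) (hκ : ∀ x ∈ W, ∀ z ∈ R x, κ x z ∈ W) :
    ∃ Z J : Finset V, Z ⊆ W ∧ J ⊆ W ∧ 2 * (2 * Z.card + J.card) ≤ W.card ∧ ∀ x ∈ W, x ∉ Z →
      ∃ a ∈ Z, ∃ b ∈ Z, a ≠ b ∧ a ∈ R x ∧ b ∈ R x ∧ (κ x a = κ x b ∨ (κ x a ∈ J ∧ κ x b ∈ J)) := by
  classical
  let T1 : V → Prop := fun x => ∃ k, 2049 ≤ ((R x).filter fun z => κ x z = k).card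
  let lab : V → Finset V := fun x => (R x).image (κ x)
  have hlab : ∀ x ∈ W, ¬ T1 x → lab x ⊆ W ∧ 2 ^ 21 ≤ (lab x).card := by
    intro x hx hT
    refine ⟨fun k hk => ?_, ?_⟩
    · obtain ⟨z, hz, rfl⟩ := Finset.mem_image.1 hk
      exact hκ x hx z hz
    · have h1 : (R x).card ≤ 2048 * ((R x).image (κ x)).card := by
        refine Finset.card_le_mul_card_image (R x) 2048 fun k _ => ?_
        by_contra h2
        exact hT ⟨k, by omega⟩
      have h3 := (hR x hx).2
      have h4 : DD = 2 ^ 32 := rfl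
      rw [h4] at h3
      have h5 : (lab x).card = ((R x).image (κ x)).card := rfl
      rw [h5]
      omega
  obtain ⟨J, hJW, hJ1, hJ2⟩ := hitting_set (W.filter fun x => ¬ T1 x) W lab 2049 (16 * 2049) (2 ^ 21)
    (fun x hx => hlab x (Finset.mem_filter.1 hx).1 (Finset.mem_filter.1 hx).2) (by norm_num)
  obtain ⟨U1, hU1⟩ : ∃ U1 : Finset V, U1 = (W.filter fun x => ¬ T1 x).filter fun x => (lab x ∩ J).card < 2049 :=
    ⟨_, rfl⟩
  rw [← hU1] at hJ2
  have hk : ∀ x, ∃ k, T1 x → 2049 ≤ ((R x).filter fun z => κ x z = k).card := by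
    intro x
    by_cases hT : T1 x
    · obtain ⟨k, hk⟩ := hT
      exact ⟨k, fun _ => hk⟩
    · exact ⟨x, fun h => absurd h hT⟩
  choose k hk using hk
  let N1 : V → Finset V := fun x =>
    if T1 x then (R x).filter (fun z => κ x z = k x) else (R x).filter (fun z => κ x z ∈ J)
  have hN1R : ∀ x, N1 x ⊆ R x := by
    intro x
    by_cases hT : T1 x
    · simp only [N1, if_pos hT]
      exact Finset.filter_subset _ _
    · simp only [N1, if_neg hT]
      exact Finset.filter_subset _ _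
  have hN1c : ∀ x ∈ W \ U1, N1 x ⊆ W ∧ 2049 ≤ (N1 x).card := by
    intro x hx
    obtain ⟨hxW, hxU⟩ := Finset.mem_sdiff.1 hx
    refine ⟨(hN1R x).trans (hR x hxW).1, ?_⟩
    by_cases hT : T1 x
    · simp only [N1, if_pos hT]
      exact hk x hT
    · simp only [N1, if_neg hT]
      have h1 : 2049 ≤ (lab x ∩ J).card := by
        by_contra h2
        apply hxU
        rw [hU1]
        exact Finset.mem_filter.2 ⟨Finset.mem_filter.2 ⟨hxW, hT⟩, by omega⟩
      have h3 : lab x ∩ J ⊆ ((R x).filter (fun z => κ x z ∈ J)).image (κ x) := by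
        intro l hl
        obtain ⟨hl1, hl2⟩ := Finset.mem_inter.1 hl
        obtain ⟨z, hz, rfl⟩ := Finset.mem_image.1 hl1
        exact Finset.mem_image.2 ⟨z, Finset.mem_filter.2 ⟨hz, hl2⟩, rfl⟩
      exact h1.trans ((Finset.card_le_card h3).trans Finset.card_image_le)
  obtain ⟨Z0, hZW, hZ1, hZ2⟩ := hitting_set (W \ U1) W N1 2 64 2049 hN1c (by norm_num)
  obtain ⟨U2, hU2⟩ : ∃ U2 : Finset V, U2 = (W \ U1).filter fun x => (N1 x ∩ Z0).card < 2 := ⟨_, rfl⟩
  rw [← hU2] at hZ2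
  have hU1W : U1 ⊆ W := by
    rw [hU1]
    exact (Finset.filter_subset _ _).trans (Finset.filter_subset _ _)
  have hU2W : U2 ⊆ W := by
    rw [hU2]
    exact (Finset.filter_subset _ _).trans Finset.sdiff_subset
  refine ⟨Z0 ∪ U1 ∪ U2, J, Finset.union_subset (Finset.union_subset hZW hU1W) hU2W, hJW, ?_, ?_⟩
  · have c1 : (Z0 ∪ U1 ∪ U2).card ≤ Z0.card + U1.card + U2.card :=
      (Finset.card_union_le _ _).trans (Nat.add_le_add_right (Finset.card_union_le _ _) _)
    have c2 : (W.filter fun x => ¬ T1 x).card ≤ W.card := Finset.card_filter_le _ _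
    have c3 : (W \ U1).card ≤ W.card := Finset.card_le_card Finset.sdiff_subset
    norm_num at hJ1 hJ2 hZ1 hZ2
    omega
  · intro x hxW hxZ
    have hx0 : x ∉ Z0 ∪ U1 := fun h => hxZ (Finset.mem_union_left _ h)
    have hx1 : x ∉ U1 := fun h => hx0 (Finset.mem_union_right _ h)
    have hx2 : x ∉ U2 := fun h => hxZ (Finset.mem_union_right _ h)
    have hP : x ∈ W \ U1 := Finset.mem_sdiff.2 ⟨hxW, hx1⟩
    have h1 : 1 < (N1 x ∩ Z0).card := by
      by_contra h2
      apply hx2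
      rw [hU2]
      exact Finset.mem_filter.2 ⟨hP, by omega⟩
    obtain ⟨a, ha, b, hb, hab⟩ := Finset.one_lt_card.1 h1
    obtain ⟨ha1, ha2⟩ := Finset.mem_inter.1 ha
    obtain ⟨hb1, hb2⟩ := Finset.mem_inter.1 hb
    refine ⟨a, Finset.mem_union_left _ (Finset.mem_union_left _ ha2), b,
      Finset.mem_union_left _ (Finset.mem_union_left _ hb2), hab, hN1R x ha1, hN1R x hb1, ?_⟩
    by_cases hT : T1 x
    · simp only [N1, if_pos hT] at ha1 hb1
      exact Or.inl ((Finset.mem_filter.1 ha1).2.trans (Finset.mem_filter.1 hb1).2.symm)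
    · simp only [N1, if_neg hT] at ha1 hb1
      exact Or.inr ⟨(Finset.mem_filter.1 ha1).2, (Finset.mem_filter.1 hb1).2⟩

end LIN
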