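import Pool.Agent.Lib.MP_0087d5_lcMT.MDefs

/-!
# Leaf LT (medium): the sets of a laminar family which contain two elements of `W` have at most `card W` types

Proof. By induction on `W` (`Finset.induction_on`). Let `x ∉ W`, and let `γ`, `κ` be as stated for `W`. The members of `L` which contain `x` are comparable (`Lam`, they are not disjoint). If no member containing `x` meets `W`, then for
`u ∈ W` the sum for `(x, u)` is `0`: put `κ x u = κ u x = x`, `γ x = 0` (all other values unchanged; the values of `κ` on pairs of `W` are in `W`, so they are not `x`, and `γ` may be changed at `x`).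
Otherwise let `T` be a member of least cardinality which contains `x` and meets `W`, and `u₀ ∈ T ∩ W`. For `u ∈ W`, `u ∈ T`: the members containing `x` and `u` are exactly the members containing `T` (a member `S ∋ x, u` meets `W` and is comparable to `T`,
so `T ⊆ S` by the choice of `T`; if `S ⊆ T` then `card T ≤ card S` gives `S = T`): label `x`, with `γ x` the sum over the members containing `T`. For `u ∈ W`, `u ∉ T`: the members containing `x` and `u` are exactly the members containing `u₀` and `u`
(a member `S ∋ u₀, u` is comparable to `T` and not contained in `T`, so `T ⊆ S ∋ x`; a member `S ∋ x, u` is comparable to `T` and not contained in `T`, so `u₀ ∈ T ⊆ S`): put `κ x u = κ u₀ u` and `κ u x = κ u₀ u` (`u ≠ u₀`), which is in `W`.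
-/

set_option autoImplicit false

namespace LIN

open Finset MTC

theorem tree {V : Type} [Fintype V] [DecidableEq V] (L : Finset (Finset V)) (hL : Lam L) (z : Finset V → ℝ) (W : Finset V) :
    ∃ (γ : V → ℝ) (κ : V → V → V), ∀ u ∈ W, ∀ v ∈ W, u ≠ v →
      κ u v ∈ W ∧ ∑ S ∈ L.filter (fun S => u ∈ S ∧ v ∈ S), z S = γ (κ u v) := by
  induction W using Finset.induction_on with
  | empty => exact ⟨fun _ => 0, fun u _ => u, fun u hu => absurd hu (Finset.notMem_empty u)⟩
  | insert x W hx ih =>
    obtain ⟨γ, κ, h⟩ := ih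
    have hsymm : ∀ u v : V, ∑ S ∈ L.filter (fun S => u ∈ S ∧ v ∈ S), z S =
        ∑ S ∈ L.filter (fun S => v ∈ S ∧ u ∈ S), z S := by
      intro u v
      refine Finset.sum_congr (Finset.filter_congr fun S _ => ⟨fun h => ⟨h.2, h.1⟩, fun h => ⟨h.2, h.1⟩⟩) fun _ _ => rfl
    by_cases hB : ∃ S ∈ L, x ∈ S ∧ ∃ u ∈ W, u ∈ S
    · have hne : (L.filter fun S => x ∈ S ∧ ∃ u ∈ W, u ∈ S).Nonempty := by
        obtain ⟨S, hS, h1⟩ := hB
        exact ⟨S, Finset.mem_filter.2 ⟨hS, h1⟩⟩
      obtain ⟨T, hT, hmin⟩ := Finset.exists_min_image _ Finset.card hne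
      obtain ⟨hTL, hxT, u₀, hu₀W, hu₀T⟩ := Finset.mem_filter.1 hT
      have k1 : ∀ v ∈ W, v ∈ T → ∀ S ∈ L, ((x ∈ S ∧ v ∈ S) ↔ T ⊆ S) := by
        intro v hv hvT S hS
        refine ⟨fun h1 => ?_, fun h1 => ⟨h1 hxT, h1 hvT⟩⟩
        rcases hL T hTL S hS with h2 | h2 | h2
        · exact h2
        · have h3 := hmin S (Finset.mem_filter.2 ⟨hS, h1.1, v, hv, h1.2⟩)
          exact (Finset.eq_of_subset_of_card_le h2 h3).symm.subset
        · exact absurd h1.1 (Finset.disjoint_left.1 h2 hxT)
      have k2 : ∀ v ∈ W, v ∉ T → ∀ S ∈ L, ((x ∈ S ∧ v ∈ S) ↔ (u₀ ∈ S ∧ v ∈ S)) := by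
        intro v hv hvT S hS
        rcases hL T hTL S hS with h2 | h2 | h2
        · exact ⟨fun h1 => ⟨h2 hu₀T, h1.2⟩, fun h1 => ⟨h2 hxT, h1.2⟩⟩
        · exact ⟨fun h1 => absurd (h2 h1.2) hvT, fun h1 => absurd (h2 h1.2) hvT⟩
        · exact ⟨fun h1 => absurd h1.1 (Finset.disjoint_left.1 h2 hxT),
            fun h1 => absurd h1.1 (Finset.disjoint_left.1 h2 hu₀T)⟩
      have main : ∀ v ∈ W, (if v ∈ T then x else κ u₀ v) ∈ insert x W ∧
          ∑ S ∈ L.filter (fun S => x ∈ S ∧ v ∈ S), z S =
            (if (if v ∈ T then x else κ u₀ v) = x then ∑ S ∈ L.filter (fun S => T ⊆ S), z S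
              else γ (if v ∈ T then x else κ u₀ v)) := by
        intro v hv
        by_cases hvT : v ∈ T
        · rw [if_pos hvT, if_pos rfl]
          refine ⟨Finset.mem_insert_self _ _, ?_⟩
          exact Finset.sum_congr (Finset.filter_congr fun S hS => k1 v hv hvT S hS) fun _ _ => rfl
        · rw [if_neg hvT]
          have hne0 : u₀ ≠ v := fun h1 => hvT (h1 ▸ hu₀T)
          obtain ⟨h1, h2⟩ := h u₀ hu₀W v hv hne0
          have h3 : κ u₀ v ≠ x := fun h4 => hx (h4 ▸ h1)
          rw [if_neg h3, ← h2]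
          refine ⟨Finset.mem_insert_of_mem h1, ?_⟩
          exact Finset.sum_congr (Finset.filter_congr fun S hS => k2 v hv hvT S hS) fun _ _ => rfl
      refine ⟨fun c => if c = x then ∑ S ∈ L.filter (fun S => T ⊆ S), z S else γ c,
        fun a b => if a = x then (if b ∈ T then x else κ u₀ b) else
          if b = x then (if a ∈ T then x else κ u₀ a) else κ a b, fun u hu v hv huv => ?_⟩
      dsimp only
      by_cases hux : u = x
      · subst hux
        have hvW : v ∈ W := (Finset.mem_insert.1 hv).resolve_left (Ne.symm huv)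
        rw [if_pos rfl]
        exact main v hvW
      · have huW : u ∈ W := (Finset.mem_insert.1 hu).resolve_left hux
        rw [if_neg hux]
        by_cases hvx : v = x
        · subst hvx
          rw [if_pos rfl, hsymm]
          exact main u huW
        · have hvW : v ∈ W := (Finset.mem_insert.1 hv).resolve_left hvx
          obtain ⟨h1, h2⟩ := h u huW v hvW huv
          have h3 : κ u v ≠ x := fun h4 => hx (h4 ▸ h1)
          rw [if_neg hvx, if_neg h3]
          exact ⟨Finset.mem_insert_of_mem h1, h2⟩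
    · have hA : ∀ v ∈ W, ∑ S ∈ L.filter (fun S => x ∈ S ∧ v ∈ S), z S = 0 := by
        intro v hv
        rw [Finset.filter_eq_empty_iff.2, Finset.sum_empty]
        intro S hS h1
        exact hB ⟨S, hS, h1.1, v, hv, h1.2⟩
      refine ⟨fun c => if c = x then 0 else γ c, fun a b => if a = x ∨ b = x then x else κ a b,
        fun u hu v hv huv => ?_⟩
      dsimp only
      by_cases hux : u = x
      · subst hux
        have hvW : v ∈ W := (Finset.mem_insert.1 hv).resolve_left (Ne.symm huv)
        rw [if_pos (Or.inl rfl), if_pos rfl]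
        exact ⟨Finset.mem_insert_self _ _, hA v hvW⟩
      · have huW : u ∈ W := (Finset.mem_insert.1 hu).resolve_left hux
        by_cases hvx : v = x
        · subst hvx
          rw [if_pos (Or.inr rfl), if_pos rfl, hsymm]
          exact ⟨Finset.mem_insert_self _ _, hA u huW⟩
        · have hvW : v ∈ W := (Finset.mem_insert.1 hv).resolve_left hvx
          obtain ⟨h1, h2⟩ := h u huW v hvW huv
          have h3 : κ u v ≠ x := fun h4 => hx (h4 ▸ h1)
          rw [if_neg (not_or.2 ⟨hux, hvx⟩), if_neg h3]
          exact ⟨Finset.mem_insert_of_mem h1, h2⟩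

end LIN
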