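import Pool.Agent.Lib.MP_0087d5_lcLI.LDefs
import Pool.Agent.Lib.MP_0087d5_lcLI.Tree
import Pool.Agent.Lib.MP_0087d5_lcLI.Pote
import Pool.Agent.Lib.MP_0087d5_lcLI.Sel
import Pool.Agent.Lib.MP_0087d5_lcMT.M1

/-!
# Leaf LA (medium, assembly): if `r` is not bad, the union of the perfect matchings of least weight has at most `DD * n` edges

Proof. Let `w = w2 r` (symmetric: `w2 r u v = r u * v + r v * u`). Suppose that there are more than `2 * DD * n` pairs. The relation `HG A w` is symmetric and irreflexive, so it is the adjacency of a simple graph; `MTC.exists_core` gives a nonempty `W` such that every `x ∈ W` has more than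
`DD` partners in `W`; `R x = {z ∈ W | HG A w x z}`. Take `L, α, z` from `potentials`, `γ, κ` from `tree L _ z W`, `Z, J` from `selection W R κ`. For `x ∈ W`, `x ∉ Z` let `z1 x = a`, `z2 x = b`, `i1 x = κ x a`, `i2 x = κ x b` (choice). Then `GoodS W Z J z1 z2 i1 i2`, and
`Pot W Z z1 z2 i1 i2 r` with `α`, `γ` (`w x a = α x + α a - γ (κ x a)` because `x ≠ a` are in `W`). So `BadA r`.
-/

set_option autoImplicit false

namespace LIN

open Finset MTC

open Classical in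
theorem sparse2 {n q : ℕ} (A : Fin n → Fin n → Prop) (hA : ∀ a, ¬ A a a) (hM : ∃ f, IsPM A f) (r : Fin n → ZMod q) (hr : ¬ BadA r) :
    (univ.filter fun p : Fin n × Fin n => HG A (w2 r) p.1 p.2).card ≤ 2 * DD * n := by
  by_contra hcon
  rw [not_le] at hcon
  have hne : ∀ a b, HG A (w2 r) a b → a ≠ b := by
    rintro a b ⟨f, hf, hab⟩ rfl
    have h1 := hf.1.2 a
    rw [hab] at h1
    exact hA a h1
  have hsym : ∀ a b, HG A (w2 r) a b → HG A (w2 r) b a := by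
    rintro a b ⟨f, hf, hab⟩
    exact ⟨f, hf, by rw [← hab]; exact hf.1.1 a⟩
  obtain ⟨H, hH⟩ : ∃ H : SimpleGraph (Fin n), ∀ a b, H.Adj a b ↔ HG A (w2 r) a b :=
    ⟨{ Adj := fun a b => HG A (w2 r) a b
       symm := ⟨fun a b h => hsym a b h⟩
       loopless := ⟨fun a h => hne a a h rfl⟩ }, fun a b => Iff.rfl⟩
  have hHG : (univ.filter fun p : Fin n × Fin n => H.Adj p.1 p.2) = univ.filter fun p : Fin n × Fin n => HG A (w2 r) p.1 p.2 :=
    Finset.filter_congr fun p _ => hH p.1 p.2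
  obtain ⟨W, hW, hdeg⟩ := exists_core H DD (by rw [hHG, Fintype.card_fin]; exact hcon)
  have hwsym : ∀ a b, w2 r a b = w2 r b a := by
    intro a b
    unfold w2
    ring
  obtain ⟨L, hL, α, z, hpot⟩ := potentials A hA (w2 r) hwsym hM
  obtain ⟨γ, κ, hκ⟩ := tree L hL z W
  have hmem : ∀ x z : Fin n, z ∈ (W.filter fun b => H.Adj x b) → z ∈ W ∧ HG A (w2 r) x z ∧ x ≠ z := by
    intro x z h
    have h1 := Finset.mem_filter.1 h
    have h2 := (hH x z).1 h1.2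
    exact ⟨h1.1, h2, hne x z h2⟩
  obtain ⟨Z, J, hZ, hJ, hcard, hsel⟩ := selection W (fun x => W.filter fun b => H.Adj x b) κ
    (fun x hx => ⟨Finset.filter_subset _ _, (hdeg x hx).le⟩)
    (fun x hx z hz => (hκ x hx z (hmem x z hz).1 (hmem x z hz).2.2).1)
  have hsel2 : ∀ x : Fin n, ∃ p : Fin n × Fin n, x ∈ W → x ∉ Z → p.1 ∈ Z ∧ p.2 ∈ Z ∧ p.1 ≠ p.2 ∧
      p.1 ∈ (W.filter fun b => H.Adj x b) ∧ p.2 ∈ (W.filter fun b => H.Adj x b) ∧
      (κ x p.1 = κ x p.2 ∨ (κ x p.1 ∈ J ∧ κ x p.2 ∈ J)) := by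
    intro x
    by_cases hx : x ∈ W ∧ x ∉ Z
    · obtain ⟨a, ha, b, hb, hab, haR, hbR, h⟩ := hsel x hx.1 hx.2
      exact ⟨(a, b), fun _ _ => ⟨ha, hb, hab, haR, hbR, h⟩⟩
    · exact ⟨(x, x), fun h1 h2 => absurd ⟨h1, h2⟩ hx⟩
  choose p hp using hsel2
  have hw : ∀ x ∈ W, ∀ z ∈ (W.filter fun b => H.Adj x b), (w2 r x z : ℝ) = α x + α z - γ (κ x z) := by
    intro x hx z hz
    have h1 := hmem x z hz
    rw [hpot x z h1.2.1, (hκ x hx z h1.1 h1.2.2).2]
  refine hr ⟨W, Z, J, fun x => (p x).1, fun x => (p x).2, fun x => κ x (p x).1, fun x => κ x (p x).2,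
    ⟨hZ, hJ, hW, hcard, fun x hx hxZ => ?_⟩, α, γ, fun x hx hxZ => ?_⟩
  · have h1 := hp x hx hxZ
    exact ⟨h1.2.2.1, h1.1, h1.2.1, h1.2.2.2.2.2⟩
  · have h1 := hp x hx hxZ
    exact ⟨hw x hx _ h1.2.2.2.1, hw x hx _ h1.2.2.2.2.1⟩

end LIN
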