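import Pool.Agent.Lib.MP_0087d5_lcLI.Spar
import Pool.Agent.Lib.MP_0087d5_lcLI.CntA
import Pool.Agent.Lib.MP_0087d5_lcLI.Par
import Pool.Agent.Lib.MP_0087d5_lcLI.Exc
import Pool.Agent.Lib.MP_0087d5_lcMT.X1
import Pool.Agent.Lib.MP_0087d5_lcMT.I1
import Pool.Agent.Lib.MP_0087d5_lcMT.I2
import Pool.Agent.Lib.MP_0087d5_lcMT.N1
import Pool.Agent.Lib.MP_0087d5_lcMT.S6
import Pool.Agent.Lib.MP_0087d5_lc.PM

/-!
# Leaf LF (medium, assembly): all but `n ^ (C n)` sources serve all graphs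

Proof (compare `exc_bound2` and `universal` in `Pool/Agent/Lib/MP_0087d5_lcMT/Y1.lean`). Let `q, h` be from `params2`, `g` from `MTC.exists_gen`, `C` from `numbers DD`. Let `A` be a source such that for some `G` with a perfect matching (`hasPM_iff`) `¬ OK2 C G A`.
Case 1: `BadA (rG q A g y t)` for all `y` and all `t ≤ 2 * n`: less than `q ^ (5 * n)` such `A` (`card_exc2` with `B = BadA`, `card_badA`).
Case 2: there are `y`, `t ≤ 2 * n` with `¬ BadA r`, `r = rG q A g y t`. Let `R = HG G.Adj (w2 r)`; `R` has at most `2 * DD * n` pairs (`sparse2`). For all `y'` and all `t' ≤ 2 * n` the point `rG q A g y' t'` is bad (`BadR`) for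
`{f | IsMin G.Adj (w2 r) f}` (otherwise `iso_of_good` with `w1 = w2 r`, `K = 2 * n ^ 2 * q + 1` gives `Iso G (WT2 K q A g y t y' t')`, so `OK2 C G A` by `numbers`), which is `{f | IsMin R (w2 r) f}` (`isMin_HG`). For given `r` and `R` there are less than
`q ^ (5 * n)` such `A` (`card_exc2` with `B = BadR {f | IsMin R (w2 r) f}`, `isolation`); there are `q ^ n` points `r` and at most `(n ^ 2 + 1) ^ (2 * DD * n)` relations `R` (`card_rel`). Total: `numbers`.
-/

set_option autoImplicit false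

namespace LIN

open Finset MTC Pool.Agent Pool.Agent.PMNC

open Classical in
private theorem LF_iso {n q : ℕ} [Fact q.Prime] (F : Set (Fin n → Fin n)) :
    (univ.filter fun r : Fin n → ZMod q => BadR F r).card ≤ n ^ 3 * q ^ (n - 1) := by
  have h := isolation (q := q) F
  rw [Nat.card_eq_fintype_card, Fintype.card_subtype] at h
  exact h

open Classical in
private theorem LF_main (n q h C : ℕ) (hn : 2 ≤ n) (hq : q.Prime) (hqlo : (4 * n ^ 5) ^ 4 ≤ q) (hh : h ≤ q)
    (hd5 : (h - 1) * (5 * n) * (n ^ 2 - 1) < q) (h2 : n ^ 2 ≤ q - 1)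
    (h3 : q ^ (3 * n) * (2 * n ^ 3) ^ (2 * n) < h ^ (5 * n)) (hC1 : q ≤ n ^ C) (hC2 : 2 * n ^ 2 * q + 1 ≤ n ^ C) :
    (univ.filter fun A : SimpleGraph (Fin n) => ∃ G : SimpleGraph (Fin n), (∃ f, IsPM G.Adj f) ∧ ¬ OK2 C G A).card ≤
      q ^ (5 * n) + q ^ n * (n ^ 2 + 1) ^ (2 * DD * n) * q ^ (5 * n) := by
  have hfact : Fact q.Prime := ⟨hq⟩
  obtain ⟨g, hg⟩ := exists_gen q
  obtain ⟨M, hM⟩ : ∃ M, M = 2 * DD * n := ⟨_, rfl⟩
  rw [← hM]
  have key : (univ.filter fun A : SimpleGraph (Fin n) => ∃ G : SimpleGraph (Fin n), (∃ f, IsPM G.Adj f) ∧ ¬ OK2 C G A) ⊆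
      (univ.filter fun A : SimpleGraph (Fin n) => ∀ y : ZMod q, ∀ t ≤ 2 * n, BadA (rG q A g y t)) ∪
      ((univ : Finset (Fin n → ZMod q)) ×ˢ
        (univ.filter fun R : Fin n → Fin n → Prop =>
          (univ.filter fun q : Fin n × Fin n => R q.1 q.2).card ≤ M)).biUnion
        fun p => univ.filter fun A : SimpleGraph (Fin n) =>
          ∀ y : ZMod q, ∀ t ≤ 2 * n, BadR {f | IsMin p.2 (w2 p.1) f} (rG q A g y t) := by
    intro A hA
    rw [mem_filter] at hA
    obtain ⟨-, G, hG, hP⟩ := hA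
    rw [mem_union]
    by_cases hcase : ∀ y : ZMod q, ∀ t ≤ 2 * n, BadA (rG q A g y t)
    · left
      rw [mem_filter]
      exact ⟨mem_univ _, hcase⟩
    · right
      push Not at hcase
      obtain ⟨y, t, ht, hb⟩ := hcase
      rw [mem_biUnion]
      refine ⟨(rG q A g y t, HG G.Adj (w2 (rG q A g y t))), ?_, ?_⟩
      · rw [mem_product]
        refine ⟨mem_univ _, ?_⟩
        rw [mem_filter]
        refine ⟨mem_univ _, ?_⟩
        rw [hM]
        exact sparse2 G.Adj (fun a => G.irrefl) hG (rG q A g y t) hb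
      · rw [mem_filter]
        refine ⟨mem_univ _, fun y' t' ht' => ?_⟩
        by_contra hb'
        have hF : {f | IsMin (HG G.Adj (w2 (rG q A g y t))) (w2 (rG q A g y t)) f} =
            {f | IsMin G.Adj (w2 (rG q A g y t)) f} := by
          ext f
          exact isMin_HG G.Adj (w2 (rG q A g y t)) f hG
        have hb2 : ¬ BadR {f | IsMin (HG G.Adj (w2 (rG q A g y t))) (w2 (rG q A g y t)) f} (rG q A g y' t') := hb'
        rw [hF] at hb2
        have hiso := iso_of_good G.Adj (w2 (rG q A g y t)) (2 * n ^ 2 * q + 1) (by omega) (rG q A g y' t') hG hb2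
        exact hP ⟨2 * n ^ 2 * q + 1, q, t, t', g, y, y', hq, hC2, hC1, ht, ht', hiso⟩
  refine (card_le_card key).trans ((card_union_le _ _).trans (Nat.add_le_add ?_ ?_))
  · exact (card_exc2 hn g hg hh hd5 h2 h3 BadA (card_badA hn hqlo)).le
  · refine card_biUnion_le.trans ((sum_le_card_nsmul _ _ (q ^ (5 * n)) fun p _ => ?_).trans ?_)
    · exact (card_exc2 hn g hg hh hd5 h2 h3 (BadR {f | IsMin p.2 (w2 p.1) f}) (LF_iso _)).le
    · rw [smul_eq_mul, card_product, card_univ, Fintype.card_fun, ZMod.card, Fintype.card_fin]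
      exact Nat.mul_le_mul_right _ (Nat.mul_le_mul_left _ (card_rel n M))

theorem universal2 : ∃ C : ℕ, ∀ n : ℕ, 2 ≤ n →
    Nat.card {A : SimpleGraph (Fin n) // ∃ G : SimpleGraph (Fin n), HasPM G ∧ ¬ OK2 C G A} ≤ n ^ (C * n) := by
  classical
  obtain ⟨C, hC⟩ := numbers DD
  refine ⟨C, fun n hn => ?_⟩
  obtain ⟨q, h, hq, hqlo, hqhi, hh, hd5, h2, h3⟩ := params2 hn
  obtain ⟨hC1, hC2, hC3⟩ := hC n q hn hqhi
  refine le_trans ?_ ((LF_main n q h C hn hq hqlo hh hd5 h2 h3 hC1 hC2).trans hC3)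
  refine le_of_eq ?_
  rw [Nat.card_eq_fintype_card, Fintype.card_subtype]
  congr 1
  ext A
  rw [mem_filter, mem_filter]
  refine and_congr_right fun _ => exists_congr fun G => and_congr_left fun _ => ?_
  rw [hasPM_iff]
  exact Iff.rfl

end LIN
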