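import Pool.Agent.Lib.MP_0087d5_lcZE.ZFin
import Pool.Agent.Lib.MP_0087d5_lcLI.Uni
import Pool.Agent.Lib.MP_0087d5_lcLI.NC2

/-!
# The errorless test with two walks
-/

set_option autoImplicit false
set_option linter.all false

namespace LIN

open Relation Pool.Agent Pool.Agent.PMNC MTC ZER

/-- **The errorless test.** There are `Yes` and `No` in NC and `C` with `Yes G → HasPM G`, `No G → ¬ HasPM G`, and for every `n` at most `n ^ (C * n)`
graphs with `n` vertices satisfy neither. -/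
theorem zero_error2 : ∃ (Yes No : ∀ n : ℕ, SimpleGraph (Fin n) → Prop) (C : ℕ), PMNC.InNC Yes ∧ PMNC.InNC No ∧
    (∀ n G, Yes n G → HasPM G) ∧ (∀ n G, No n G → ¬ HasPM G) ∧
    ∀ n : ℕ, Nat.card {G : SimpleGraph (Fin n) // ¬ Yes n G ∧ ¬ No n G} ≤ n ^ (C * n) := by
  obtain ⟨C, hU⟩ := universal2
  obtain ⟨Y, hY1, hY2, hY3⟩ := nc2_defP C def_self def_self
  obtain ⟨P, hP1, hP2, hP3⟩ := nc2_def C (B := fun n => Fin n × (Fin n × Fin n)) (A := fun n G _ => G) (T := TT)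
    (DefP.adj (Tm.fst (F := fun n => Fin n) (H := fun n => Fin n) (Tm.snd Tm.id))
      (Tm.snd (F := fun n => Fin n) (H := fun n => Fin n) (Tm.snd Tm.id))) def_TT
  refine ⟨fun n G => (n ≤ 1 ∧ HasPM G) ∨ Y n G, fun n G => (n ≤ 1 ∧ ¬ HasPM G) ∨ NoP P n G, C, ?_, ?_, ?_, ?_, ?_⟩
  · exact PMNC.InNC.or (inNC_of_defP (defP_small 1 (fun n G => HasPM G))) hY1
  · exact PMNC.InNC.or (inNC_of_defP (defP_small 1 (fun n G => ¬ HasPM G))) (inNC_of_defP (def_NoP hP1))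
  · rintro n G (h | h)
    · exact h.2
    · exact hY2 n G h
  · rintro n G (h | h)
    · exact h.2
    · exact noP_sound h
  · intro n
    rcases Nat.lt_or_ge 1 n with hn | hn
    · refine le_trans ?_ (hU n hn)
      refine Nat.card_le_card_of_injective (fun G : {G : SimpleGraph (Fin n) // ¬ ((n ≤ 1 ∧ HasPM G) ∨ Y n G) ∧
        ¬ ((n ≤ 1 ∧ ¬ HasPM G) ∨ NoP P n G)} => (⟨G.1, ?_⟩ : {A : SimpleGraph (Fin n) // ∃ G : SimpleGraph (Fin n), HasPM G ∧ ¬ OK2 C G A})) ?_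
      · by_contra hc
        push Not at hc
        apply G.2.2
        refine Or.inr (noP_complete (fun e => ⟨hP2 n G.1 e, fun h => ?_⟩) fun h => ?_)
        · exact hP3 n hn G.1 e (hc _ h)
        · exact G.2.1 (Or.inr (hY3 n hn G.1 (hc _ h)))
      · intro a b hab
        exact Subtype.ext (congrArg (fun z : {A : SimpleGraph (Fin n) // ∃ G : SimpleGraph (Fin n), HasPM G ∧ ¬ OK2 C G A} => z.1) hab)
    · have h0 : IsEmpty {G : SimpleGraph (Fin n) // ¬ ((n ≤ 1 ∧ HasPM G) ∨ Y n G) ∧ ¬ ((n ≤ 1 ∧ ¬ HasPM G) ∨ NoP P n G)} := by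
        refine ⟨fun G => ?_⟩
        by_cases h : HasPM G.1
        · exact G.2.1 (Or.inl ⟨hn, h⟩)
        · exact G.2.2 (Or.inl ⟨hn, h⟩)
      rw [Nat.card_of_isEmpty]
      exact Nat.zero_le _

end LIN
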